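import Mathlib

/-!
# Direct factors of finite groups can be cancelled
-/

set_option autoImplicit false

namespace Pool.Agent.Zk34.TJ

/-- Homomorphisms with kernel `N` are injective homomorphisms on the quotient. -/
def kerEquiv {F G : Type} [Group F] [Group G] (N : Subgroup F) [N.Normal] :
    {φ : F →* G // φ.ker = N} ≃ {ψ : F ⧸ N →* G // Function.Injective ψ} where
  toFun φ := ⟨QuotientGroup.lift N φ.1 (fun x hx => by
      have h : x ∈ φ.1.ker := by
        rw [φ.2]
        exact hx
      exact h), by
    rw [injective_iff_map_eq_one]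
    intro a
    refine QuotientGroup.induction_on a fun x hx => ?_
    have h1 : φ.1 x = 1 := hx
    have h2 : x ∈ N := by
      rw [← φ.2]
      exact h1
    exact (QuotientGroup.eq_one_iff x).2 h2⟩
  invFun ψ := ⟨ψ.1.comp (QuotientGroup.mk' N), by
    ext x
    constructor
    · intro hx
      have h1 : ψ.1 (QuotientGroup.mk x) = 1 := hx
      have h2 := ψ.2 (h1.trans (map_one ψ.1).symm)
      exact (QuotientGroup.eq_one_iff x).1 h2
    · intro hx
      have h2 := (QuotientGroup.eq_one_iff (N := N) x).2 hx
      show ψ.1 (QuotientGroup.mk x) = 1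
      rw [h2, map_one]⟩
  left_inv φ := by
    refine Subtype.ext (MonoidHom.ext fun x => ?_)
    rfl
  right_inv ψ := by
    refine Subtype.ext (MonoidHom.ext fun x => ?_)
    refine QuotientGroup.induction_on x fun y => ?_
    rfl

/-- The number of homomorphisms according to the kernel. -/
theorem card_hom (F G : Type) [Group F] [Group G] [Finite F] [Finite G]
    [Fintype {N : Subgroup F // N.Normal}] :
    Nat.card (F →* G) =
      ∑ N : {N : Subgroup F // N.Normal}, Nat.card {φ : F →* G // φ.ker = N.1} := by
  have : Finite (F →* G) := Finite.of_injective (fun φ : F →* G => (φ : F → G))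
    DFunLike.coe_injective
  have e := Equiv.sigmaFiberEquiv
    (fun φ : F →* G => (⟨φ.ker, inferInstance⟩ : {N : Subgroup F // N.Normal}))
  rw [← Nat.card_congr e, Nat.card_sigma]
  refine Finset.sum_congr rfl fun N _ => ?_
  refine Nat.card_congr (Equiv.subtypeEquivRight fun φ => ?_)
  rw [Subtype.ext_iff]

/-- Groups with the same numbers of homomorphisms have the same numbers of injections. -/
theorem inj_eq {G H : Type} [Group G] [Group H] [Finite G] [Finite H]
    (h : ∀ (F : Type) [Group F] [Finite F], Nat.card (F →* G) = Nat.card (F →* H)) (n : ℕ) :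
    ∀ (F : Type) [Group F] [Finite F], Nat.card F = n →
      Nat.card {φ : F →* G // Function.Injective φ} =
        Nat.card {φ : F →* H // Function.Injective φ} := by
  classical
  induction n using Nat.strong_induction_on with
  | _ n ih =>
    intro F _ _ hn
    have : Finite {N : Subgroup F // N.Normal} := inferInstance
    have : Fintype {N : Subgroup F // N.Normal} := Fintype.ofFinite _
    have h1 := card_hom F G
    have h2 := card_hom F H
    rw [h F, h2] at h1
    let b : {N : Subgroup F // N.Normal} := ⟨⊥, inferInstance⟩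
    rw [← Finset.add_sum_erase _ _ (Finset.mem_univ b),
      ← Finset.add_sum_erase _ _ (Finset.mem_univ b)] at h1
    have h3 : ∑ N ∈ Finset.univ.erase b, Nat.card {φ : F →* H // φ.ker = N.1} =
        ∑ N ∈ Finset.univ.erase b, Nat.card {φ : F →* G // φ.ker = N.1} := by
      refine Finset.sum_congr rfl fun N hN => ?_
      have hNb : N.1 ≠ ⊥ := fun h' => (Finset.mem_erase.1 hN).1 (Subtype.ext h')
      have := N.2
      rw [Nat.card_congr (kerEquiv N.1), Nat.card_congr (kerEquiv N.1)]
      refine (ih (Nat.card (F ⧸ N.1)) ?_ (F ⧸ N.1) rfl).symm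
      rw [← hn]
      have h4 := Subgroup.card_eq_card_quotient_mul_card_subgroup N.1
      have h5 : 1 < Nat.card N.1 := by
        rw [Subgroup.one_lt_card_iff_ne_bot]
        exact hNb
      have h6 : 0 < Nat.card (F ⧸ N.1) := Nat.card_pos
      rw [h4]
      exact lt_mul_of_one_lt_right h6 h5
    rw [h3] at h1
    have h7 := Nat.add_right_cancel h1
    have h8 : ∀ (G' : Type) [Group G'], Nat.card {φ : F →* G' // φ.ker = b.1} =
        Nat.card {φ : F →* G' // Function.Injective φ} := fun G' _ =>
      Nat.card_congr (Equiv.subtypeEquivRight fun φ => MonoidHom.ker_eq_bot_iff φ)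
    rw [h8, h8] at h7
    exact h7.symm

/-- Groups with the same numbers of homomorphisms are isomorphic. -/
theorem equiv_of_hom {G H : Type} [Group G] [Group H] [Finite G] [Finite H]
    (h : ∀ (F : Type) [Group F] [Finite F], Nat.card (F →* G) = Nat.card (F →* H)) :
    Nonempty (G ≃* H) := by
  classical
  have key : ∀ (G H : Type) [Group G] [Group H] [Finite G] [Finite H],
      (∀ (F : Type) [Group F] [Finite F], Nat.card (F →* G) = Nat.card (F →* H)) →
      ∃ φ : G →* H, Function.Injective φ := by
    intro G H _ _ _ _ h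
    have h1 := inj_eq h (Nat.card G) G rfl
    have : Finite (G →* G) := Finite.of_injective (fun φ : G →* G => (φ : G → G))
      DFunLike.coe_injective
    have : Nonempty {φ : G →* G // Function.Injective φ} :=
      ⟨⟨MonoidHom.id G, fun _ _ h => h⟩⟩
    have h2 : 0 < Nat.card {φ : G →* G // Function.Injective φ} := Nat.card_pos
    rw [h1] at h2
    obtain ⟨⟨φ, hφ⟩⟩ := (Nat.card_pos_iff.1 h2).1
    exact ⟨φ, hφ⟩
  obtain ⟨φ, hφ⟩ := key G H h
  obtain ⟨ψ, hψ⟩ := key H G fun F _ _ => (h F).symm
  have h1 : Nat.card G ≤ Nat.card H := Nat.card_le_card_of_injective φ hφ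
  have h2 : Nat.card H ≤ Nat.card G := Nat.card_le_card_of_injective ψ hψ
  have : Fintype G := Fintype.ofFinite G
  have : Fintype H := Fintype.ofFinite H
  have h3 : Function.Bijective φ := by
    rw [Fintype.bijective_iff_injective_and_card]
    refine ⟨hφ, ?_⟩
    rw [Nat.card_eq_fintype_card, Nat.card_eq_fintype_card] at h1 h2
    exact le_antisymm h1 h2
  exact ⟨MulEquiv.ofBijective φ h3⟩

/-- **Cancellation of direct factors of finite groups.** -/
theorem cancel {G H E : Type} [Group G] [Group H] [Group E] [Finite G] [Finite H] [Finite E]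
    (θ : G × E ≃* H × E) : Nonempty (G ≃* H) := by
  refine equiv_of_hom fun F _ _ => ?_
  have e1 : ∀ (G' : Type) [Group G'], Nat.card (F →* G' × E) =
      Nat.card (F →* G') * Nat.card (F →* E) := by
    intro G' _
    rw [← Nat.card_prod]
    exact Nat.card_congr
      ⟨fun φ => ((MonoidHom.fst G' E).comp φ, (MonoidHom.snd G' E).comp φ),
        fun ψ => ψ.1.prod ψ.2, fun φ => by
          refine MonoidHom.ext fun x => ?_
          rfl, fun ψ => by
          refine Prod.ext (MonoidHom.ext fun x => rfl) (MonoidHom.ext fun x => rfl)⟩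
  have e2 : Nat.card (F →* G × E) = Nat.card (F →* H × E) :=
    Nat.card_congr
      ⟨fun φ => θ.toMonoidHom.comp φ, fun φ => θ.symm.toMonoidHom.comp φ, fun φ => by
        refine MonoidHom.ext fun x => ?_
        exact θ.symm_apply_apply _, fun φ => by
        refine MonoidHom.ext fun x => ?_
        exact θ.apply_symm_apply _⟩
  rw [e1, e1] at e2
  have : Finite (F →* E) := Finite.of_injective (fun φ : F →* E => (φ : F → E))
    DFunLike.coe_injective
  have : Nonempty (F →* E) := ⟨1⟩
  exact Nat.eq_of_mul_eq_mul_right Nat.card_pos e2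

end Pool.Agent.Zk34.TJ
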