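import Mathlib

/-!
# Coincidences between products of labelled elements
-/

set_option autoImplicit false
set_option linter.unusedSectionVars false
set_option linter.unusedSimpArgs false
set_option linter.unusedTactic false
set_option linter.unreachableTactic false

namespace Pool.Agent.Zk34.TJ

open Finset

/-- A label or a cell of the multiplication table. -/
abbrev Atom (Q : Type) : Type := Q ⊕ Q × Q

/-- The element given by an atom. -/
def val {Q E : Type} [Mul E] (u : Q → E) : Atom Q → E := Sum.elim u fun c => u c.1 * u c.2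

/-- The labels of an atom. -/
def labs {Q : Type} [DecidableEq Q] : Atom Q → Finset Q := Sum.elim (fun x => {x}) fun c => {c.1, c.2}

/-- Change two values. -/
def upd {Q E : Type} [DecidableEq Q] (u : Q → E) (y y' : Q) (s t : E) : Q → E :=
  fun x => if x = y then s else if x = y' then t else u x

variable {Q E : Type} [DecidableEq Q] [Group E]

@[simp] theorem val_inl (u : Q → E) (x : Q) : val u (Sum.inl x) = u x := rfl
@[simp] theorem val_inr (u : Q → E) (x y : Q) : val u (Sum.inr (x, y)) = u x * u y := rfl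
@[simp] theorem labs_inl (x : Q) : labs (Sum.inl x : Atom Q) = {x} := rfl
@[simp] theorem labs_inr (x y : Q) : labs (Sum.inr (x, y) : Atom Q) = {x, y} := rfl

theorem upd_left (u : Q → E) (y y' : Q) (s t : E) : upd u y y' s t y = s := if_pos rfl

theorem upd_right (u : Q → E) {y y' : Q} (h : y ≠ y') (s t : E) : upd u y y' s t y' = t := by
  unfold upd
  rw [if_neg h.symm, if_pos rfl]

theorem upd_other (u : Q → E) {y y' x : Q} (h : x ≠ y) (h' : x ≠ y') (s t : E) :
    upd u y y' s t x = u x := by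
  unfold upd
  rw [if_neg h, if_neg h']

/-- What a letter of an equation can be. -/
theorem letter (u : Q → E) {y y' : Q} (h : y ≠ y') (x : Q) :
    (x = y ∧ ∀ s t, upd u y y' s t x = s) ∨ (x = y' ∧ ∀ s t, upd u y y' s t x = t) ∨
      (x ≠ y ∧ x ≠ y' ∧ ∀ s t, upd u y y' s t x = u x) := by
  by_cases h1 : x = y
  · left
    subst h1
    exact ⟨rfl, fun s t => upd_left u x y' s t⟩
  · by_cases h2 : x = y'
    · right; left
      subst h2
      exact ⟨rfl, fun s t => upd_right u h s t⟩
    · right; right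
      exact ⟨h1, h2, fun s t => upd_other u h1 h2 s t⟩

/-- An equation between two different atoms determines one of two of its labels or says that they
commute. -/
theorem trich (hsq : ∀ a b : E, a * a = b * b → a = b) (u : Q → E) {α β : Atom Q} (hne : α ≠ β)
    {y y' : Q} (h : y ≠ y') (hy : y ∈ labs α ∪ labs β) (hy' : y' ∈ labs α ∪ labs β) :
    (∀ t s s', val (upd u y y' s t) α = val (upd u y y' s t) β →
      val (upd u y y' s' t) α = val (upd u y y' s' t) β → s = s') ∨
    (∀ s t t', val (upd u y y' s t) α = val (upd u y y' s t) β →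
      val (upd u y y' s t') α = val (upd u y y' s t') β → t = t') ∨
    (∀ s t, val (upd u y y' s t) α = val (upd u y y' s t) β → s * t = t * s) := by
  have hne' := h.symm
  rcases α with a | ⟨a, b⟩ <;> rcases β with c | ⟨c, d⟩
  · rcases letter u h a with ⟨ea, ha⟩ | ⟨ea, ha⟩ | ⟨ea, ea', ha⟩ <;>
    rcases letter u h c with ⟨ec, hc⟩ | ⟨ec, hc⟩ | ⟨ec, ec', hc⟩ <;>
    simp only [val_inl, ha, hc, labs_inl, mem_union, mem_singleton] at hy hy' ⊢ <;>
    first
    | (exfalso; apply hne; rw [ea, ec]; done)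
    | (exfalso; clear hne hsq ; grind)
    | (exfalso; grind)
    | exact Or.inl fun t s s' h1 h2 => h1.trans h2.symm
    | exact Or.inl fun t s s' h1 h2 => h1.symm.trans h2
  · rcases letter u h a with ⟨ea, ha⟩ | ⟨ea, ha⟩ | ⟨ea, ea', ha⟩ <;>
    rcases letter u h c with ⟨ec, hc⟩ | ⟨ec, hc⟩ | ⟨ec, ec', hc⟩ <;>
    rcases letter u h d with ⟨ed, hd⟩ | ⟨ed, hd⟩ | ⟨ed, ed', hd⟩ <;>
    simp only [val_inl, val_inr, ha, hc, hd, labs_inl, labs_inr, mem_union, mem_singleton,
      mem_insert] at hy hy' ⊢ <;>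
    first
    | exact Or.inl fun t s s' h1 h2 => h1.trans h2.symm
    | exact Or.inl fun t s s' h1 h2 => mul_left_cancel (h1.symm.trans h2)
    | exact Or.inl fun t s s' h1 h2 => mul_right_cancel (h1.symm.trans h2)
    | exact Or.inr (Or.inl fun s t t' h1 h2 => h1.trans h2.symm)
    | exact Or.inr (Or.inl fun s t t' h1 h2 => mul_left_cancel (h1.symm.trans h2))
    | exact Or.inr (Or.inl fun s t t' h1 h2 => mul_right_cancel (h1.symm.trans h2))
    | (exfalso; clear hne hsq ; grind)
    | (exfalso; grind)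
  · rcases letter u h a with ⟨ea, ha⟩ | ⟨ea, ha⟩ | ⟨ea, ea', ha⟩ <;>
    rcases letter u h b with ⟨eb, hb⟩ | ⟨eb, hb⟩ | ⟨eb, eb', hb⟩ <;>
    rcases letter u h c with ⟨ec, hc⟩ | ⟨ec, hc⟩ | ⟨ec, ec', hc⟩ <;>
    simp only [val_inl, val_inr, ha, hb, hc, labs_inl, labs_inr, mem_union, mem_singleton,
      mem_insert] at hy hy' ⊢ <;>
    first
    | exact Or.inl fun t s s' h1 h2 => h1.symm.trans h2
    | exact Or.inl fun t s s' h1 h2 => mul_left_cancel (h1.trans h2.symm)
    | exact Or.inl fun t s s' h1 h2 => mul_right_cancel (h1.trans h2.symm)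
    | exact Or.inr (Or.inl fun s t t' h1 h2 => h1.symm.trans h2)
    | exact Or.inr (Or.inl fun s t t' h1 h2 => mul_left_cancel (h1.trans h2.symm))
    | exact Or.inr (Or.inl fun s t t' h1 h2 => mul_right_cancel (h1.trans h2.symm))
    | (exfalso; clear hne hsq ; grind)
    | (exfalso; grind)
  · rcases letter u h a with ⟨ea, ha⟩ | ⟨ea, ha⟩ | ⟨ea, ea', ha⟩ <;>
    rcases letter u h b with ⟨eb, hb⟩ | ⟨eb, hb⟩ | ⟨eb, eb', hb⟩ <;>
    rcases letter u h c with ⟨ec, hc⟩ | ⟨ec, hc⟩ | ⟨ec, ec', hc⟩ <;>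
    rcases letter u h d with ⟨ed, hd⟩ | ⟨ed, hd⟩ | ⟨ed, ed', hd⟩ <;>
    simp only [val_inr, ha, hb, hc, hd, labs_inr, mem_union, mem_singleton,
      mem_insert] at hy hy' ⊢ <;>
    first
    | exact Or.inl fun t s s' h1 h2 => mul_left_cancel (h1.trans h2.symm)
    | exact Or.inl fun t s s' h1 h2 => mul_right_cancel (h1.trans h2.symm)
    | exact Or.inl fun t s s' h1 h2 => mul_left_cancel (h1.symm.trans h2)
    | exact Or.inl fun t s s' h1 h2 => mul_right_cancel (h1.symm.trans h2)
    | exact Or.inr (Or.inl fun s t t' h1 h2 => mul_left_cancel (h1.trans h2.symm))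
    | exact Or.inr (Or.inl fun s t t' h1 h2 => mul_right_cancel (h1.trans h2.symm))
    | exact Or.inr (Or.inl fun s t t' h1 h2 => mul_left_cancel (h1.symm.trans h2))
    | exact Or.inr (Or.inl fun s t t' h1 h2 => mul_right_cancel (h1.symm.trans h2))
    | exact Or.inl fun t s s' h1 h2 => hsq _ _ (h1.trans h2.symm)
    | exact Or.inl fun t s s' h1 h2 => hsq _ _ (h1.symm.trans h2)
    | exact Or.inr (Or.inr fun s t h1 => h1)
    | exact Or.inr (Or.inr fun s t h1 => h1.symm)
    | (exfalso; apply hne; rw [ea, eb, ec, ed]; done)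
    | (exfalso; clear hne hsq ; grind)
    | (exfalso; grind)

variable [Fintype E] [DecidableEq E]

/-- The number of solutions of an equation in two of its labels. -/
theorem count_le (hsq : ∀ a b : E, a * a = b * b → a = b) {q : ℕ} (hq : q ≤ Fintype.card E)
    (hc : q * (univ.filter fun x : E × E => x.1 * x.2 = x.2 * x.1).card ≤ 2 * Fintype.card E ^ 2)
    (u : Q → E) {α β : Atom Q} (hne : α ≠ β) {y y' : Q} (h : y ≠ y') (hy : y ∈ labs α ∪ labs β)
    (hy' : y' ∈ labs α ∪ labs β) :
    q * (univ.filter fun x : E × E =>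
      val (upd u y y' x.1 x.2) α = val (upd u y y' x.1 x.2) β).card ≤ 2 * Fintype.card E ^ 2 := by
  have key : ∀ s : Finset (E × E), s.card ≤ Fintype.card E → q * s.card ≤ 2 * Fintype.card E ^ 2 := by
    intro s hs
    have h1 := Nat.mul_le_mul hq hs
    rw [pow_two]
    omega
  rcases trich hsq u hne h hy hy' with h1 | h1 | h1
  · refine key _ ?_
    rw [← card_univ]
    refine card_le_card_of_injOn Prod.snd (fun _ _ => mem_coe.2 (mem_univ _)) ?_
    rintro ⟨s, t⟩ hx ⟨s', t'⟩ hx' hxx
    have e : t = t' := hxx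
    subst e
    rw [h1 t s s' (mem_filter.1 (mem_coe.1 hx)).2 (mem_filter.1 (mem_coe.1 hx')).2]
  · refine key _ ?_
    rw [← card_univ]
    refine card_le_card_of_injOn Prod.fst (fun _ _ => mem_coe.2 (mem_univ _)) ?_
    rintro ⟨s, t⟩ hx ⟨s', t'⟩ hx' hxx
    have e : s = s' := hxx
    subst e
    rw [h1 s t t' (mem_filter.1 (mem_coe.1 hx)).2 (mem_filter.1 (mem_coe.1 hx')).2]
  · refine le_trans (Nat.mul_le_mul_left _ (card_le_card ?_)) hc
    intro x hx
    rw [mem_filter] at hx ⊢
    exact ⟨hx.1, h1 _ _ hx.2⟩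

end Pool.Agent.Zk34.TJ
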