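import Mathlib
import Pool.Agent.W879.GW.Grp

/-!
# The Heisenberg group over a finite field
-/

set_option autoImplicit false

namespace Pool.Agent.Zk34.TJ

open Pool.Agent.W879.GW Finset

/-- The determinant form. -/
def bE (F : Type) [Field F] : Bil (F × F) F where
  fn u v := u.1 * v.2 - u.2 * v.1
  add_left u u' v := by
    simp only [Prod.fst_add, Prod.snd_add]
    ring
  add_right u v v' := by
    simp only [Prod.fst_add, Prod.snd_add]
    ring

theorem bE_self (F : Type) [Field F] (v : F × F) : (bE F).fn v v = 0 := by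
  show v.1 * v.2 - v.2 * v.1 = 0
  ring

variable {F : Type} [Field F]

theorem sq_inj (h2 : (2 : F) ≠ 0) {a b : GE (bE F)} (h : a * a = b * b) : a = b := by
  have h1 := congrArg vc h
  have h3 := congrArg zc h
  rw [vc_mul, vc_mul] at h1
  rw [zc_mul, zc_mul, bE_self, bE_self, add_zero, add_zero] at h3
  have key : ∀ x y : F, x + x = y + y → x = y := by
    intro x y hxy
    refine mul_left_cancel₀ h2 ?_
    rw [two_mul, two_mul, hxy]
  refine GE_ext (Prod.ext ?_ ?_) (key _ _ h3)
  · exact key _ _ (congrArg Prod.fst h1)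
  · exact key _ _ (congrArg Prod.snd h1)

theorem comm_iff (h2 : (2 : F) ≠ 0) (a b : GE (bE F)) :
    a * b = b * a ↔ (vc a).1 * (vc b).2 = (vc a).2 * (vc b).1 := by
  rw [mul_comm_iff]
  show (vc a).1 * (vc b).2 - (vc a).2 * (vc b).1 = (vc b).1 * (vc a).2 - (vc b).2 * (vc a).1 ↔ _
  constructor
  · intro h
    refine mul_left_cancel₀ h2 ?_
    linear_combination h
  · intro h
    linear_combination 2 * h

variable [Fintype F]

theorem card_E : Fintype.card (GE (bE F)) = Fintype.card F ^ 3 := by
  rw [card_GE, Fintype.card_prod]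
  ring

open Classical in
/-- The number of commuting pairs. -/
theorem card_comm (h2 : (2 : F) ≠ 0) :
    Fintype.card F * (univ.filter fun x : GE (bE F) × GE (bE F) => x.1 * x.2 = x.2 * x.1).card ≤
      2 * Fintype.card (GE (bE F)) ^ 2 := by
  obtain ⟨q, hq⟩ : ∃ q, q = Fintype.card F := ⟨_, rfl⟩
  rw [card_E, ← hq]
  have h1 : ∀ a : GE (bE F), (univ.filter fun b : GE (bE F) => a * b = b * a).card ≤
      q ^ 2 + if vc a = 0 then q ^ 3 else 0 := by
    intro a
    by_cases ha : vc a = 0
    · rw [if_pos ha]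
      have h3 : (univ.filter fun b : GE (bE F) => a * b = b * a).card ≤
        Fintype.card (GE (bE F)) := card_le_univ _
      rw [card_E, ← hq] at h3
      omega
    · rw [if_neg ha, add_zero, hq, pow_two, ← Fintype.card_prod, ← card_univ]
      by_cases ha1 : (vc a).1 = 0
      · have ha2 : (vc a).2 ≠ 0 := fun h => ha (Prod.ext ha1 h)
        refine card_le_card_of_injOn (fun b => ((vc b).2, zc b)) (fun _ _ => mem_coe.2 (mem_univ _)) ?_
        intro b hb b' hb' hbb
        have hb1 := (comm_iff h2 a b).1 (mem_filter.1 (mem_coe.1 hb)).2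
        have hb2 := (comm_iff h2 a b').1 (mem_filter.1 (mem_coe.1 hb')).2
        rw [ha1, zero_mul] at hb1 hb2
        obtain ⟨e1, e2⟩ := Prod.mk.inj (show ((vc b).2, zc b) = ((vc b').2, zc b') from hbb)
        refine GE_ext (Prod.ext ?_ e1) e2
        exact mul_left_cancel₀ ha2 (hb1.symm.trans hb2)
      · refine card_le_card_of_injOn (fun b => ((vc b).1, zc b)) (fun _ _ => mem_coe.2 (mem_univ _)) ?_
        intro b hb b' hb' hbb
        have hb1 := (comm_iff h2 a b).1 (mem_filter.1 (mem_coe.1 hb)).2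
        have hb2 := (comm_iff h2 a b').1 (mem_filter.1 (mem_coe.1 hb')).2
        obtain ⟨e1, e2⟩ := Prod.mk.inj (show ((vc b).1, zc b) = ((vc b').1, zc b') from hbb)
        refine GE_ext (Prod.ext e1 ?_) e2
        refine mul_left_cancel₀ ha1 ?_
        rw [hb1, hb2, e1]
  have h3 : (univ.filter fun x : GE (bE F) × GE (bE F) => x.1 * x.2 = x.2 * x.1).card =
      ∑ a : GE (bE F), (univ.filter fun b : GE (bE F) => a * b = b * a).card := by
    simp only [card_filter]
    rw [Fintype.sum_prod_type]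
  have h4 : (univ.filter fun a : GE (bE F) => vc a = 0).card ≤ q := by
    rw [hq, ← card_univ]
    refine card_le_card_of_injOn (fun b => zc b) (fun _ _ => mem_coe.2 (mem_univ _)) ?_
    intro b hb b' hb' hbb
    refine GE_ext ?_ hbb
    rw [(mem_filter.1 (mem_coe.1 hb)).2, (mem_filter.1 (mem_coe.1 hb')).2]
  have h5 : ∑ a : GE (bE F), (univ.filter fun b : GE (bE F) => a * b = b * a).card ≤
      q ^ 3 * q ^ 2 + q * q ^ 3 := by
    refine (sum_le_sum fun a _ => h1 a).trans ?_
    rw [sum_add_distrib, sum_const, card_univ, card_E, ← hq, smul_eq_mul, ← sum_filter, sum_const,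
      smul_eq_mul]
    exact Nat.add_le_add_left (Nat.mul_le_mul_right _ h4) _
  rw [h3]
  have hq1 : 1 ≤ q := by
    rw [hq]
    exact Fintype.card_pos
  calc q * ∑ a : GE (bE F), (univ.filter fun b : GE (bE F) => a * b = b * a).card
      ≤ q * (q ^ 3 * q ^ 2 + q * q ^ 3) := Nat.mul_le_mul_left _ h5
    _ = q ^ 5 * q + q ^ 5 * 1 := by ring
    _ ≤ q ^ 5 * q + q ^ 5 * q := Nat.add_le_add_left (Nat.mul_le_mul_left _ hq1) _
    _ = 2 * (q ^ 3) ^ 2 := by ring

end Pool.Agent.Zk34.TJ
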