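import Pool.Agent.Zk34.TJ.Shift
import Pool.Agent.Zk34.TJ.Heis
import Pool.Agent.Zk34.TJ.Cancel
import Pool.Agent.Y600.Circ.Main

/-!
# Labelled groups that cannot be distinguished by few small parts of their tables
-/

set_option autoImplicit false
set_option linter.unusedSectionVars false

namespace Pool.Agent.Zk34.TJ

open Finset Module Pool.Agent.Y600.GI Pool.Agent.Y600.Circ
open Pool.Agent.W879.GW (T GE vc zc)

theorem expTwo_prod {p : ℕ} {G H : Type} (iG : Group G) (iH : Group H) (hG : ExpTwo p iG)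
    (hH : ExpTwo p iH) : ExpTwo p (inferInstance : Group (G × H)) :=
  ⟨fun a => Prod.ext (hG.1 a.1) (hH.1 a.2), fun a b c =>
    Prod.ext (hG.2 a.1 b.1 c.1) (hH.2 a.2 b.2 c.2)⟩

theorem expTwo_E {p : ℕ} {F : Type} [Field F] [CharP F p] :
    ExpTwo p (inferInstance : Group (GE (bE F))) :=
  ⟨fun a => Pool.Agent.W879.GW.pow_char (F := F) (p := p) (bE_self F) a,
    fun a b c => Pool.Agent.W879.GW.commutator_central a b c⟩

section

variable {F A C : Type} [Field F] [AddCommGroup A] [Module F A]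
  [AddCommGroup C] [Module F C] {g : ℕ}

/-- The group structure of the form `f`. -/
@[instance_reducible] def gX (ι : C →ₗ[F] (Fin g → Dual F A)) (f : A →ₗ[F] A →ₗ[F] (Fin g → F)) :
    Group (QQ F A C g) := (inferInstance : Group (GE (betC ι f)))

variable {Q E : Type} [Group E]

/-- The group structure on the labels. -/
@[instance_reducible] def gQ (ι : C →ₗ[F] (Fin g → Dual F A)) (f : A →ₗ[F] A →ₗ[F] (Fin g → F))
    (e₀ : Q ≃ QQ F A C g × E) : Group Q :=
  @Equiv.group _ _ e₀ (@Prod.instGroup _ _ (gX ι f) inferInstance)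

theorem gQ_apply (ι : C →ₗ[F] (Fin g → Dual F A)) (f : A →ₗ[F] A →ₗ[F] (Fin g → F))
    (e₀ : Q ≃ QQ F A C g × E) (x y : Q) :
    e₀ (tab (gQ ι f e₀) x y) = (op ι f (e₀ x).1 (e₀ y).1, (e₀ x).2 * (e₀ y).2) :=
  e₀.apply_symm_apply _

theorem relabel_gQ [FiniteDimensional F A] [DecidableEq Q] (ι : C →ₗ[F] (Fin g → Dual F A))
    (f : A →ₗ[F] A →ₗ[F] (Fin g → F))
    (e₀ e : Q ≃ QQ F A C g × E) (σ : E → (A →ₗ[F] C) × QQ F A C g) (a b : Q) :
    relabel ((labl e σ).trans e₀.symm) (tab (gQ ι f e₀)) a b = mt ι f e σ a b := by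
  show (labl e σ).symm (e₀ (tab (gQ ι f e₀) (e₀.symm (labl e σ a)) (e₀.symm (labl e σ b)))) = _
  rw [gQ_apply, Equiv.apply_symm_apply, Equiv.apply_symm_apply]
  rfl

theorem iso_of_relabel [Finite F] [Finite A] [Finite C] [Finite E]
    (ι : C →ₗ[F] (Fin g → Dual F A)) (f f' : A →ₗ[F] A →ₗ[F] (Fin g → F))
    (e₀ : Q ≃ QQ F A C g × E) (σ : Equiv.Perm Q)
    (h : relabel σ (tab (gQ ι f e₀)) = tab (gQ ι f' e₀)) :
    Nonempty (GE (betC ι f') ≃* GE (betC ι f)) := by
  have h1 : ∀ x y, σ (tab (gQ ι f' e₀) x y) = tab (gQ ι f e₀) (σ x) (σ y) := fun x y => by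
    rw [← congrFun (congrFun h x) y]
    exact σ.apply_symm_apply _
  have : Finite (GE (betC ι f)) := inferInstanceAs (Finite (QQ F A C g))
  have : Finite (GE (betC ι f')) := inferInstanceAs (Finite (QQ F A C g))
  have key : ∀ x y : QQ F A C g × E, e₀ (σ (e₀.symm (op ι f' x.1 y.1, x.2 * y.2))) =
      (op ι f (e₀ (σ (e₀.symm x))).1 (e₀ (σ (e₀.symm y))).1,
        (e₀ (σ (e₀.symm x))).2 * (e₀ (σ (e₀.symm y))).2) := by
    intro x y
    rw [← gQ_apply, ← h1]
    have h2 := gQ_apply ι f' e₀ (e₀.symm x) (e₀.symm y)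
    rw [e₀.apply_symm_apply, e₀.apply_symm_apply] at h2
    rw [← h2, e₀.symm_apply_apply]
  let θ : GE (betC ι f') × E ≃* GE (betC ι f) × E :=
    { toEquiv := (e₀.symm.trans σ).trans e₀
      map_mul' := key }
  exact cancel θ

theorem expTwo_gQ {p : ℕ} [CharP F p] (ι : C →ₗ[F] (Fin g → Dual F A))
    (N : A →ₗ[F] (Fin g → Dual F A)) (e₀ : Q ≃ QQ F A C g × E)
    (hE : ExpTwo p (inferInstance : Group E)) : ExpTwo p (gQ ι (T N) e₀) := by
  have h0 : ExpTwo p (gX (C := C) ι (T N)) := by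
    refine ⟨fun x => ?_, fun x y z => ?_⟩
    · have hb : ∀ v, (betC ι (T N)).fn v v = 0 := by
        intro v
        rw [betC_apply, sub_self, add_zero]
        funext l
        rw [Pool.Agent.W879.GW.T_apply, sub_self]
        rfl
      exact Pool.Agent.W879.GW.pow_char (F := F) (p := p) hb (x : GE (betC ι (T N)))
    · exact Pool.Agent.W879.GW.commutator_central (x : GE (betC ι (T N))) y z
  exact expTwo_equiv _ e₀ (expTwo_prod (gX ι (T N)) inferInstance h0 hE)

end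

/-- The atoms of a set of cells. -/
def atoms {Q : Type} [DecidableEq Q] (S : Finset (Q × Q)) : Finset (Atom Q) :=
  S.image Sum.inr ∪ (S.image (fun c => Sum.inl c.1) ∪ S.image (fun c => Sum.inl c.2))

theorem card_atoms {Q : Type} [DecidableEq Q] (S : Finset (Q × Q)) :
    (atoms S).card ≤ 3 * S.card := by
  have h1 := card_union_le (S.image (Sum.inr : Q × Q → Atom Q))
    (S.image (fun c => (Sum.inl c.1 : Atom Q)) ∪ S.image (fun c => (Sum.inl c.2 : Atom Q)))
  have h2 := card_union_le (S.image (fun c => (Sum.inl c.1 : Atom Q)))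
    (S.image (fun c => (Sum.inl c.2 : Atom Q)))
  have h3 : (S.image (Sum.inr : Q × Q → Atom Q)).card ≤ S.card := card_image_le
  have h4 : (S.image (fun c => (Sum.inl c.1 : Atom Q))).card ≤ S.card := card_image_le
  have h5 : (S.image (fun c => (Sum.inl c.2 : Atom Q))).card ≤ S.card := card_image_le
  unfold atoms
  omega

theorem mem_atoms {Q : Type} [DecidableEq Q] {S : Finset (Q × Q)} {a b : Q} (h : (a, b) ∈ S) :
    Sum.inr (a, b) ∈ atoms S := mem_union_left _ (mem_image_of_mem _ h)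

theorem atoms_closed {Q : Type} [DecidableEq Q] {S : Finset (Q × Q)} (c : Q × Q)
    (h : Sum.inr c ∈ atoms S) : Sum.inl c.1 ∈ atoms S ∧ Sum.inl c.2 ∈ atoms S := by
  have hc : c ∈ S := by
    unfold atoms at h
    simp only [mem_union, mem_image, Sum.inr.injEq, exists_eq_right, reduceCtorEq, and_false,
      exists_false, or_false] at h
    exact h
  exact ⟨mem_union_right _ (mem_union_left _ (mem_image.2 ⟨c, hc, rfl⟩)),
    mem_union_right _ (mem_union_right _ (mem_image.2 ⟨c, hc, rfl⟩))⟩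

open Classical in
/-- A labeling that is good for all sets of cells. -/
theorem exists_good {Q X E : Type} [Fintype Q] [Fintype X] [Fintype E] [Group E]
    (hsq : ∀ a b : E, a * a = b * b → a = b) {q : ℕ} (hq : q ≤ Fintype.card E)
    (hc : q * (univ.filter fun x : E × E => x.1 * x.2 = x.2 * x.1).card ≤ 2 * Fintype.card E ^ 2)
    (hQ : Fintype.card Q = Fintype.card X * Fintype.card E) {I : Type} [Fintype I]
    (S : I → Finset (Q × Q)) (t B : ℕ) (hB : ∀ i, 4 * (3 * (S i).card) ^ 2 ≤ B)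
    (hI : Fintype.card I * B ^ t < q ^ t) (hn : 16 * t + 4 ≤ Fintype.card Q) :
    ∃ e : Q ≃ X × E, ∀ i, ∃ c : Finset Q, c.card ≤ 4 * t ∧ IsCore (atoms (S i)) (pr e) c := by
  by_contra hcon
  push Not at hcon
  let bad : I → Finset (Q ≃ X × E) := fun i => univ.filter fun e =>
    ¬ ∃ C : Finset Q, C.card ≤ 4 * t ∧ IsCore (atoms (S i)) (pr e) C
  have h1 : (univ : Finset (Q ≃ X × E)) ⊆ univ.biUnion bad := by
    intro e _
    obtain ⟨i, hi⟩ := hcon e
    rw [mem_biUnion]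
    refine ⟨i, mem_univ i, ?_⟩
    rw [mem_filter]
    refine ⟨mem_univ _, ?_⟩
    rintro ⟨c, hc1, hc2⟩
    exact hi c hc1 hc2
  have h2 : Fintype.card (Q ≃ X × E) ≤ ∑ i, (bad i).card := by
    rw [← card_univ]
    exact (card_le_card h1).trans card_biUnion_le
  have h3 : ∀ i, q ^ t * (bad i).card ≤ B ^ t * Fintype.card (Q ≃ X × E) := by
    intro i
    refine (bad_bound hsq hq hc hQ (atoms (S i)) t hn).trans ?_
    refine Nat.mul_le_mul_right _ (Nat.pow_le_pow_left (le_trans ?_ (hB i)) t)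
    exact Nat.mul_le_mul_left _ (Nat.pow_le_pow_left (card_atoms (S i)) 2)
  have h4 : q ^ t * Fintype.card (Q ≃ X × E) ≤
      Fintype.card I * B ^ t * Fintype.card (Q ≃ X × E) := by
    calc q ^ t * Fintype.card (Q ≃ X × E) ≤ q ^ t * ∑ i, (bad i).card :=
          Nat.mul_le_mul_left _ h2
      _ = ∑ i, q ^ t * (bad i).card := mul_sum _ _ _
      _ ≤ ∑ i : I, B ^ t * Fintype.card (Q ≃ X × E) := sum_le_sum fun i _ => h3 i
      _ = Fintype.card I * B ^ t * Fintype.card (Q ≃ X × E) := by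
        rw [sum_const, card_univ, smul_eq_mul, mul_assoc]
  have h5 : 0 < Fintype.card (Q ≃ X × E) := by
    rw [← Fintype.card_prod] at hQ
    have : Nonempty (Q ≃ X × E) := Fintype.card_eq.1 hQ
    exact Fintype.card_pos
  have h6 := Nat.le_of_mul_le_mul_right h4 h5
  omega

/-- The arithmetic of the parameters. -/
theorem arith {k r : ℕ} (hk : 1 ≤ k) (hr : 12000000 * k ≤ r) :
    ∃ s r₀, r₀ + 3 * s = r ∧ 10000 * (65 * k) ≤ r₀ ∧ 1 ≤ s ∧
      r * k + (4 + 2 * (r / 8 + 1)) * (16 * k) ≤ s * (16 * k) := by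
  refine ⟨(r - 650000 * k) / 3, r - 3 * ((r - 650000 * k) / 3), by omega, by omega, by omega, ?_⟩
  obtain ⟨d, hd⟩ : ∃ d, d = r / 8 := ⟨_, rfl⟩
  obtain ⟨s, hs⟩ : ∃ s, s = (r - 650000 * k) / 3 := ⟨_, rfl⟩
  rw [← hd, ← hs]
  have h1 : r + 16 * (4 + 2 * (d + 1)) ≤ 16 * s := by omega
  calc r * k + (4 + 2 * (d + 1)) * (16 * k) = (r + 16 * (4 + 2 * (d + 1))) * k := by ring
    _ ≤ (16 * s) * k := Nat.mul_le_mul_right _ h1
    _ = s * (16 * k) := by ring

/-- **Fewer than `n ^ k` sets of at most `n ^ (1 / 8)` cells do not distinguish the copies of two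
groups.** -/
theorem core (p : ℕ) (hp : p.Prime) (hp2 : p ≠ 2) (k r : ℕ) (hk : 1 ≤ k)
    (hr : 12000000 * k ≤ r) (Q : Type) [Fintype Q] (hQ : Fintype.card Q = p ^ r) :
    ∃ G H : Group Q, ExpTwo p G ∧ ExpTwo p H ∧ (¬ ∃ σ, relabel σ (tab G) = tab H) ∧
      ∀ (I : Type) [Fintype I] (S : I → Finset (Q × Q)), Fintype.card I < (p ^ r) ^ k →
        (∀ i, (S i).card ^ 8 ≤ p ^ r) →
        ∃ (d : ℕ) (γ γ' : Fin (p ^ d) → Equiv.Perm Q), ∀ i, ∃ π : Equiv.Perm (Fin (p ^ d)),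
          ∀ j a b, (a, b) ∈ S i →
            relabel (γ j) (tab G) a b = relabel (γ' (π j)) (tab H) a b := by
  classical
  have : Fact p.Prime := ⟨hp⟩
  obtain ⟨s, r₀, hsum, hr₀, hs, hineq⟩ := arith hk hr
  obtain ⟨a, b, g, ι, I₀, hI₀, N, hab, ha, hE, hι, hiso, hcard⟩ :=
    Pool.Agent.Y600.Fam.exists_family p hp2 (K := 65 * k) (r := r₀) (by omega) hr₀
  -- two different members
  obtain ⟨i₁, i₂, hne⟩ : ∃ i₁ i₂ : I₀, i₁ ≠ i₂ := by
    have h1 : 1 < Fintype.card I₀ := by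
      refine lt_of_lt_of_le ?_ hcard
      have h2 : 1 ≤ r₀ ^ 3 / (100000 * (65 * k)) := by
        rw [Nat.le_div_iff_mul_le (by omega), one_mul]
        have h3 : 100000 * (65 * k) ≤ r₀ * r₀ := Nat.mul_le_mul (by omega) (by omega)
        have h4 : r₀ * r₀ * 1 ≤ r₀ * r₀ * r₀ := Nat.mul_le_mul_left _ (by omega)
        calc 100000 * (65 * k) ≤ r₀ * r₀ * 1 := by omega
          _ ≤ r₀ * r₀ * r₀ := h4
          _ = r₀ ^ 3 := by ring
      exact Nat.one_lt_pow (by omega) hp.one_lt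
    obtain ⟨x, y, hxy⟩ := Fintype.one_lt_card_iff.1 h1
    exact ⟨x, y, hxy⟩
  let F := GaloisField p s
  have hF2 : (2 : F) ≠ 0 := by
    intro h
    have h1 : ((2 : ℕ) : F) = 0 := by exact_mod_cast h
    rw [CharP.cast_eq_zero_iff F p] at h1
    have h2 := Nat.le_of_dvd (by norm_num) h1
    have h3 := hp.two_le
    omega
  have : Finite F := by
    have h1 : Nat.card F = p ^ s := GaloisField.card p s (by omega)
    exact (Nat.card_pos_iff.1 (by rw [h1]; exact pow_pos hp.pos _)).2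
  let _ : Fintype F := Fintype.ofFinite F
  have hF : Fintype.card F = p ^ s := by
    rw [← Nat.card_eq_fintype_card]
    exact GaloisField.card p s (by omega)
  let E := GE (bE F)
  have hcE : Fintype.card E = p ^ (3 * s) := by
    have h1 : Fintype.card E = Fintype.card F ^ 3 := card_E
    rw [h1, hF, ← pow_mul]
    congr 1
    ring
  let X := QQ (ZMod p) (Fin a → ZMod p) (Fin b → ZMod p) g
  have hcX : Fintype.card X = p ^ r₀ := by
    show Fintype.card (((Fin a → ZMod p) × (Fin b → ZMod p)) × (Fin g → ZMod p)) = _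
    rw [Fintype.card_prod, Fintype.card_prod, Fintype.card_fun, Fintype.card_fun,
      Fintype.card_fun, ZMod.card, Fintype.card_fin, Fintype.card_fin, Fintype.card_fin,
      ← pow_add, ← pow_add, hab]
  have hQ' : Fintype.card Q = Fintype.card X * Fintype.card E := by
    rw [hQ, hcX, hcE, ← pow_add, hsum]
  have hQ'' : Fintype.card Q = Fintype.card (X × E) := hQ'.trans (Fintype.card_prod X E).symm
  obtain ⟨e₀⟩ : Nonempty (Q ≃ X × E) := Fintype.card_eq.1 hQ''
  have hne' : ¬ Nonempty (GE (betC ι (T (N i₂))) ≃* GE (betC ι (T (N i₁)))) := fun h =>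
    hne (hiso i₂ i₁ h).symm
  refine ⟨gQ ι (T (N i₁)) e₀, gQ ι (T (N i₂)) e₀, expTwo_gQ ι (N i₁) e₀ expTwo_E,
    expTwo_gQ ι (N i₂) e₀ expTwo_E, ?_, ?_⟩
  · rintro ⟨σ, hσ⟩
    exact hne' (iso_of_relabel ι (T (N i₁)) (T (N i₂)) e₀ σ hσ)
  · intro I _ S hI hS
    have hp3 : 3 ≤ p := by
      have := hp.two_le
      omega
    obtain ⟨d, hd⟩ : ∃ d, d = r / 8 := ⟨_, rfl⟩
    rw [← hd] at hineq
    have hm : ∀ i, (S i).card ≤ p ^ (d + 1) := by
      intro i
      by_contra hcon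
      push Not at hcon
      have h1 : (p ^ (d + 1)) ^ 8 < (S i).card ^ 8 := Nat.pow_lt_pow_left hcon (by norm_num)
      have h2 := lt_of_lt_of_le h1 (hS i)
      rw [← pow_mul] at h2
      have h3 := (Nat.pow_lt_pow_iff_right hp.one_lt).1 h2
      omega
    have hB : ∀ i, 4 * (3 * (S i).card) ^ 2 ≤ p ^ (4 + 2 * (d + 1)) := by
      intro i
      have h1 : (S i).card ^ 2 ≤ (p ^ (d + 1)) ^ 2 := Nat.pow_le_pow_left (hm i) 2
      have h2 : 3 ^ 4 ≤ p ^ 4 := Nat.pow_le_pow_left hp3 4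
      calc 4 * (3 * (S i).card) ^ 2 = 36 * (S i).card ^ 2 := by ring
        _ ≤ 3 ^ 4 * (S i).card ^ 2 := Nat.mul_le_mul_right _ (by norm_num)
        _ ≤ p ^ 4 * (p ^ (d + 1)) ^ 2 := Nat.mul_le_mul h2 h1
        _ = p ^ (4 + 2 * (d + 1)) := by
          rw [← pow_mul, ← pow_add]
          congr 1
          ring
    have hIB : Fintype.card I * (p ^ (4 + 2 * (d + 1))) ^ (16 * k) < (p ^ s) ^ (16 * k) := by
      have h1 : 0 < (p ^ (4 + 2 * (d + 1))) ^ (16 * k) := pow_pos (pow_pos hp.pos _) _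
      calc Fintype.card I * (p ^ (4 + 2 * (d + 1))) ^ (16 * k)
          < (p ^ r) ^ k * (p ^ (4 + 2 * (d + 1))) ^ (16 * k) := Nat.mul_lt_mul_of_pos_right hI h1
        _ = p ^ (r * k + (4 + 2 * (d + 1)) * (16 * k)) := by
          rw [← pow_mul, ← pow_mul, ← pow_add]
        _ ≤ p ^ (s * (16 * k)) := Nat.pow_le_pow_right hp.pos hineq
        _ = (p ^ s) ^ (16 * k) := by rw [pow_mul]
    have hn : 16 * (16 * k) + 4 ≤ Fintype.card Q := by
      rw [hQ]
      have h1 : r < 2 ^ r := Nat.lt_two_pow_self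
      have h2 : 2 ^ r ≤ p ^ r := Nat.pow_le_pow_left hp.two_le r
      omega
    have hqE : p ^ s ≤ Fintype.card E := by
      rw [hcE]
      exact Nat.pow_le_pow_right hp.pos (by omega)
    obtain ⟨e, he⟩ := exists_good (X := X) (E := E) (fun a b h => sq_inj hF2 h) hqE (by
      have h1 := card_comm (F := F) hF2
      rw [hF] at h1
      exact h1) hQ' S (16 * k) (p ^ (4 + 2 * (d + 1))) hB hIB hn
    -- the index set
    have : Finite ((Fin a → ZMod p) →ₗ[ZMod p] (Fin b → ZMod p)) :=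
      Finite.of_injective (fun M : (Fin a → ZMod p) →ₗ[ZMod p] (Fin b → ZMod p) =>
        (M : (Fin a → ZMod p) → (Fin b → ZMod p))) DFunLike.coe_injective
    let J := E → ((Fin a → ZMod p) →ₗ[ZMod p] (Fin b → ZMod p)) × X
    obtain ⟨D, hD⟩ : ∃ D, Nat.card J = p ^ D := by
      have h1 : Nat.card (((Fin a → ZMod p) →ₗ[ZMod p] (Fin b → ZMod p)) × X) =
          p ^ finrank (ZMod p) (((Fin a → ZMod p) →ₗ[ZMod p] (Fin b → ZMod p)) × X) := by
        rw [Module.natCard_eq_pow_finrank (K := ZMod p), Nat.card_zmod]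
      exact ⟨_, by rw [Nat.card_fun, h1, ← pow_mul]⟩
    obtain ⟨eJ⟩ : Nonempty (Fin (p ^ D) ≃ J) := by
      rw [← hD]
      exact ⟨(Finite.equivFin J).symm⟩
    refine ⟨D, fun j => (labl e (eJ j)).trans e₀.symm, fun j => (labl e (eJ j)).trans e₀.symm,
      fun i => ?_⟩
    obtain ⟨c, hc1, hc2⟩ := he i
    have hN : T (N i₁) - T (N i₂) = T (N i₁ - N i₂) := by
      refine LinearMap.ext fun x => LinearMap.ext fun y => funext fun i => ?_
      show (N i₁ x i y - N i₁ y i x) - (N i₂ x i y - N i₂ y i x) =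
        (N i₁ x i y - N i₂ x i y) - (N i₁ y i x - N i₂ y i x)
      ring
    obtain ⟨Φ, hΦ⟩ := exists_perm (K := 65 * k) (by omega) hι hE (N i₁ - N i₂) hN e (atoms (S i))
      (fun c hc => atoms_closed c hc) c (by omega) hc2
    refine ⟨(eJ.trans Φ).trans eJ.symm, fun j a' b' hab' => ?_⟩
    rw [relabel_gQ]
    show _ = relabel ((labl e (eJ (eJ.symm (Φ (eJ j))))).trans e₀.symm) _ a' b'
    rw [Equiv.apply_symm_apply, relabel_gQ]
    exact hΦ (eJ j) a' b' (mem_atoms hab')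

end Pool.Agent.Zk34.TJ
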