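import Pool.Agent.Zk34.TJ.Coin

/-!
# Random labelings have few coincidences
-/

set_option autoImplicit false
set_option linter.unusedSectionVars false

namespace Pool.Agent.Zk34.TJ

open Finset

variable {Q E X : Type} [DecidableEq Q] [Group E]

/-- A pair of atoms. -/
abbrev Coin (Q : Type) : Type := Atom Q × Atom Q

/-- The labels of a pair of atoms. -/
def lab2 (κ : Coin Q) : Finset Q := labs κ.1 ∪ labs κ.2

/-- The two atoms give the same element. -/
def Holds (u : Q → E) (κ : Coin Q) : Prop := val u κ.1 = val u κ.2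

/-- All labels of a list of pairs. -/
def lu : List (Coin Q) → Finset Q
  | [] => ∅
  | κ :: l => lab2 κ ∪ lu l

/-- Every pair has at least two new labels. -/
def IsChain : List (Coin Q) → Prop
  | [] => True
  | κ :: l => κ.1 ≠ κ.2 ∧ 2 ≤ (lab2 κ \ lu l).card ∧ IsChain l

theorem card_labs (α : Atom Q) : (labs α).card ≤ 2 := by
  rcases α with a | ⟨a, b⟩
  · rw [labs_inl, card_singleton]
    omega
  · exact card_le_two

theorem card_lab2 (κ : Coin Q) : (lab2 κ).card ≤ 4 := by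
  have h1 := card_union_le (labs κ.1) (labs κ.2)
  have h2 := card_labs κ.1
  have h3 := card_labs κ.2
  unfold lab2
  omega

theorem card_lu (l : List (Coin Q)) : (lu l).card ≤ 4 * l.length := by
  induction l with
  | nil => simp [lu]
  | cons κ l ih =>
    have h1 := card_union_le (lab2 κ) (lu l)
    have h2 := card_lab2 κ
    rw [List.length_cons]
    show (lab2 κ ∪ lu l).card ≤ _
    omega

/-- Either there is a small core or a long chain of coincidences. -/
theorem greedy (𝒜 : Finset (Atom Q)) (u : Q → E) (t : ℕ) :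
    (∃ C : Finset Q, C.card ≤ 4 * t ∧ ∀ α ∈ 𝒜, ∀ β ∈ 𝒜, α ≠ β → val u α = val u β →
      ((labs α ∪ labs β) \ C).card ≤ 1) ∨
    ∃ l : List (Coin Q), l.length = t ∧ IsChain l ∧
      ∀ κ ∈ l, κ.1 ∈ 𝒜 ∧ κ.2 ∈ 𝒜 ∧ Holds u κ := by
  induction t with
  | zero => exact Or.inr ⟨[], rfl, trivial, fun κ hκ => absurd hκ (by simp)⟩
  | succ t ih =>
    rcases ih with ⟨C, hC, h⟩ | ⟨l, hl, hch, hall⟩
    · exact Or.inl ⟨C, by omega, h⟩
    · by_cases hcase : ∀ α ∈ 𝒜, ∀ β ∈ 𝒜, α ≠ β → val u α = val u β →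
        ((labs α ∪ labs β) \ lu l).card ≤ 1
      · left
        refine ⟨lu l, ?_, hcase⟩
        have := card_lu l
        omega
      · right
        push Not at hcase
        obtain ⟨α, hα, β, hβ, hne, hv, hc⟩ := hcase
        refine ⟨(α, β) :: l, by rw [List.length_cons, hl], ⟨hne, hc, hch⟩, ?_⟩
        intro κ hκ
        rcases List.mem_cons.1 hκ with rfl | hκ
        · exact ⟨hα, hβ, hv⟩
        · exact hall κ hκ

theorem val_congr {u u' : Q → E} {α : Atom Q} (h : ∀ x ∈ labs α, u x = u' x) :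
    val u α = val u' α := by
  rcases α with a | ⟨a, b⟩
  · exact h a (by simp)
  · rw [val_inr, val_inr, h a (by simp), h b (by simp)]

theorem holds_congr {u u' : Q → E} {κ : Coin Q} (h : ∀ x ∈ lab2 κ, u x = u' x) :
    Holds u κ ↔ Holds u' κ := by
  unfold Holds
  rw [val_congr fun x hx => h x (mem_union_left _ hx),
    val_congr fun x hx => h x (mem_union_right _ hx)]

theorem lab2_subset_lu {l : List (Coin Q)} {κ : Coin Q} (h : κ ∈ l) : lab2 κ ⊆ lu l := by
  induction l with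
  | nil => exact absurd h (by simp)
  | cons κ' l ih =>
    rcases List.mem_cons.1 h with rfl | h
    · exact subset_union_left
    · exact (ih h).trans subset_union_right

variable [Fintype Q] [Fintype E] [Fintype X] [DecidableEq X] [DecidableEq E]

/-- The components in `E`. -/
def pr (e : Q ≃ X × E) : Q → E := fun x => (e x).2

open Classical in
/-- One more coincidence. -/
theorem step (hsq : ∀ a b : E, a * a = b * b → a = b) {q : ℕ} (hq : q ≤ Fintype.card E)
    (hc : q * (univ.filter fun x : E × E => x.1 * x.2 = x.2 * x.1).card ≤ 2 * Fintype.card E ^ 2)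
    (hQ : Fintype.card Q = Fintype.card X * Fintype.card E)
    (l : List (Coin Q)) (κ : Coin Q) (hne : κ.1 ≠ κ.2) (h2 : 2 ≤ (lab2 κ \ lu l).card)
    (hn : 16 * (l.length + 1) + 4 ≤ Fintype.card Q) :
    q * (univ.filter fun e : Q ≃ X × E => ∀ κ' ∈ κ :: l, Holds (pr e) κ').card ≤
      4 * (univ.filter fun e : Q ≃ X × E => ∀ κ' ∈ l, Holds (pr e) κ').card := by
  obtain ⟨y, hy, y', hy', hyy⟩ := one_lt_card.1 (show 1 < (lab2 κ \ lu l).card by omega)
  rw [mem_sdiff] at hy hy'
  obtain ⟨n, hnn⟩ : ∃ n, n = Fintype.card Q := ⟨_, rfl⟩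
  let Z : Finset Q := univ \ (lu l ∪ lab2 κ)
  have hZmem : ∀ z, z ∈ Z → z ∉ lu l ∧ z ∉ lab2 κ := by
    intro z hz
    have h3 := (mem_sdiff.1 hz).2
    exact ⟨fun h => h3 (mem_union_left _ h), fun h => h3 (mem_union_right _ h)⟩
  have hZ : n ≤ Z.card + 4 * (l.length + 1) := by
    have h3 := card_sdiff_add_card (univ : Finset Q) (lu l ∪ lab2 κ)
    rw [union_eq_left.2 (subset_univ _), card_univ, ← hnn] at h3
    have h4 := card_union_le (lu l) (lab2 κ)
    have h5 := card_lu l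
    have h6 := card_lab2 κ
    show n ≤ (univ \ (lu l ∪ lab2 κ)).card + _
    omega
  obtain ⟨A, hA⟩ : ∃ A : Finset (Q ≃ X × E),
    A = univ.filter fun e : Q ≃ X × E => ∀ κ' ∈ l, Holds (pr e) κ' := ⟨_, rfl⟩
  obtain ⟨B, hB⟩ : ∃ B : Finset (Q ≃ X × E),
    B = univ.filter fun e : Q ≃ X × E => ∀ κ' ∈ κ :: l, Holds (pr e) κ' := ⟨_, rfl⟩
  rw [← hA, ← hB]
  let s : Q × Q → Equiv.Perm Q := fun x => (Equiv.swap y' x.2).trans (Equiv.swap y x.1)
  -- the swapped labelings
  have hs1 : ∀ x ∈ Z.offDiag, ∀ w, w ∉ ({y, y', x.1, x.2} : Finset Q) → s x w = w ∧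
      (s x).symm w = w := by
    intro x _ w hw
    simp only [mem_insert, mem_singleton, not_or] at hw
    obtain ⟨w1, w2, w3, w4⟩ := hw
    have e1 : Equiv.swap y' x.2 w = w := Equiv.swap_apply_of_ne_of_ne w2 w4
    have e2 : Equiv.swap y x.1 w = w := Equiv.swap_apply_of_ne_of_ne w1 w3
    refine ⟨?_, ?_⟩
    · show Equiv.swap y x.1 (Equiv.swap y' x.2 w) = w
      rw [e1, e2]
    · show (Equiv.swap y' x.2).symm ((Equiv.swap y x.1).symm w) = w
      rw [Equiv.symm_swap, Equiv.symm_swap, e2, e1]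
  have hs2 : ∀ x ∈ Z.offDiag, ∀ e : Q ≃ X × E, ∀ w ∈ lab2 κ,
      pr ((s x).trans e) w = upd (pr e) y y' (pr e x.1) (pr e x.2) w := by
    intro x hx e w hw
    rw [mem_offDiag] at hx
    have hz1 := hZmem _ hx.1
    have hz2 := hZmem _ hx.2.1
    have hy1 : x.1 ≠ y := fun h => hz1.2 (h ▸ hy.1)
    have hy2 : x.2 ≠ y' := fun h => hz2.2 (h ▸ hy'.1)
    have hy3 : x.1 ≠ y' := fun h => hz1.2 (h ▸ hy'.1)
    have hy4 : x.2 ≠ y := fun h => hz2.2 (h ▸ hy.1)
    show (e (Equiv.swap y x.1 (Equiv.swap y' x.2 w))).2 = _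
    by_cases hwy : w = y
    · subst hwy
      rw [upd_left, Equiv.swap_apply_of_ne_of_ne hyy (Ne.symm hy4), Equiv.swap_apply_left]
      rfl
    · by_cases hwy' : w = y'
      · subst hwy'
        rw [upd_right _ hyy, Equiv.swap_apply_left,
          Equiv.swap_apply_of_ne_of_ne hy4 (Ne.symm hx.2.2)]
        rfl
      · have hw1 : w ≠ x.1 := fun h => hz1.2 (h ▸ hw)
        have hw2 : w ≠ x.2 := fun h => hz2.2 (h ▸ hw)
        rw [upd_other _ hwy hwy', Equiv.swap_apply_of_ne_of_ne hwy' hw2,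
          Equiv.swap_apply_of_ne_of_ne hwy hw1]
        rfl
  have hnot : ∀ x ∈ Z.offDiag, ∀ w ∈ lu l, w ∉ ({y, y', x.1, x.2} : Finset Q) := by
    intro x hx w hw
    rw [mem_offDiag] at hx
    have hz1 := hZmem _ hx.1
    have hz2 := hZmem _ hx.2.1
    simp only [mem_insert, mem_singleton, not_or]
    exact ⟨fun h => hy.2 (h ▸ hw), fun h => hy'.2 (h ▸ hw), fun h => hz1.1 (h ▸ hw),
      fun h => hz2.1 (h ▸ hw)⟩
  have hinv : ∀ x ∈ Z.offDiag, ∀ e : Q ≃ X × E, ((s x).trans e ∈ A ↔ e ∈ A) ∧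
      ((s x).symm.trans e ∈ A ↔ e ∈ A) := by
    intro x hx e
    rw [hA]
    simp only [mem_filter, mem_univ, true_and]
    refine ⟨forall₂_congr fun κ' hκ' => holds_congr fun w hw => ?_,
      forall₂_congr fun κ' hκ' => holds_congr fun w hw => ?_⟩
    · show (e (s x w)).2 = (e w).2
      rw [(hs1 x hx w (hnot x hx w (lab2_subset_lu hκ' hw))).1]
    · show (e ((s x).symm w)).2 = (e w).2
      rw [(hs1 x hx w (hnot x hx w (lab2_subset_lu hκ' hw))).2]
  have hBA : ∀ e, e ∈ B ↔ e ∈ A ∧ Holds (pr e) κ := by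
    intro e
    rw [hA, hB]
    simp only [mem_filter, mem_univ, true_and, List.mem_cons, forall_eq_or_imp]
    exact and_comm
  have hcardB : ∀ x ∈ Z.offDiag,
      (A.filter fun e => Holds (pr ((s x).trans e)) κ).card = B.card := by
    intro x hx
    refine card_nbij' (fun e => (s x).trans e) (fun e => (s x).symm.trans e) ?_ ?_ ?_ ?_
    · intro e he
      rw [mem_coe, mem_filter] at he
      rw [mem_coe, hBA]
      exact ⟨((hinv x hx e).1).2 he.1, he.2⟩
    · intro e he
      rw [mem_coe, hBA] at he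
      rw [mem_coe, mem_filter]
      refine ⟨((hinv x hx e).2).2 he.1, ?_⟩
      have e1 : (s x).trans ((s x).symm.trans e) = e := by
        ext w <;> simp
      rw [e1]
      exact he.2
    · intro e _
      ext w <;> simp
    · intro e _
      ext w <;> simp
  have hdouble : Z.offDiag.card * B.card =
      ∑ e ∈ A, (Z.offDiag.filter fun x => Holds (pr ((s x).trans e)) κ).card := by
    simp only [card_filter]
    rw [sum_comm, ← smul_eq_mul, ← sum_const]
    refine sum_congr rfl fun x hx => ?_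
    rw [← card_filter, hcardB x hx]
  have hbound : ∀ e : Q ≃ X × E,
      q * (Z.offDiag.filter fun x => Holds (pr ((s x).trans e)) κ).card ≤ 2 * n ^ 2 := by
    intro e
    have h3 : (Z.offDiag.filter fun x => Holds (pr ((s x).trans e)) κ).card ≤
        ((univ : Finset (X × X)) ×ˢ (univ.filter fun x : E × E =>
          val (upd (pr e) y y' x.1 x.2) κ.1 = val (upd (pr e) y y' x.1 x.2) κ.2)).card := by
      refine card_le_card_of_injOn
        (fun x => (((e x.1).1, (e x.2).1), ((e x.1).2, (e x.2).2))) ?_ ?_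
      · intro x hx
        rw [mem_coe, mem_filter] at hx
        rw [mem_coe, mem_product, mem_filter]
        refine ⟨mem_univ _, mem_univ _, ?_⟩
        have h4 := (holds_congr (hs2 x hx.1 e)).1 hx.2
        exact h4
      · intro x _ x' _ hxx
        obtain ⟨h5, h6⟩ := Prod.mk.inj (show (((e x.1).1, (e x.2).1), ((e x.1).2, (e x.2).2)) =
          (((e x'.1).1, (e x'.2).1), ((e x'.1).2, (e x'.2).2)) from hxx)
        obtain ⟨h7, h8⟩ := Prod.mk.inj h5
        obtain ⟨h9, h10⟩ := Prod.mk.inj h6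
        exact Prod.ext (e.injective (Prod.ext h7 h9)) (e.injective (Prod.ext h8 h10))
    rw [card_product, card_univ, Fintype.card_prod] at h3
    have h4 := count_le hsq hq hc (pr e) hne hyy hy.1 hy'.1
    calc q * (Z.offDiag.filter fun x => Holds (pr ((s x).trans e)) κ).card
        ≤ q * (Fintype.card X * Fintype.card X * (univ.filter fun x : E × E =>
          val (upd (pr e) y y' x.1 x.2) κ.1 = val (upd (pr e) y y' x.1 x.2) κ.2).card) :=
          Nat.mul_le_mul_left _ h3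
      _ = Fintype.card X * Fintype.card X * (q * (univ.filter fun x : E × E =>
          val (upd (pr e) y y' x.1 x.2) κ.1 = val (upd (pr e) y y' x.1 x.2) κ.2).card) := by ring
      _ ≤ Fintype.card X * Fintype.card X * (2 * Fintype.card E ^ 2) := Nat.mul_le_mul_left _ h4
      _ = 2 * n ^ 2 := by
        rw [hnn, hQ]
        ring
  have h5 : q * (Z.offDiag.card * B.card) ≤ A.card * (2 * n ^ 2) := by
    rw [hdouble, mul_sum, ← smul_eq_mul, ← sum_const]
    exact sum_le_sum fun e _ => hbound e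
  have h6 : n ^ 2 ≤ 2 * Z.offDiag.card := by
    rw [offDiag_card]
    obtain ⟨z, hz⟩ : ∃ z, z = Z.card := ⟨_, rfl⟩
    obtain ⟨t, ht⟩ : ∃ t, t = l.length := ⟨_, rfl⟩
    rw [← hz] at hZ ⊢
    rw [← ht] at hZ hn
    rw [← hnn] at hn
    have h7 : z ≤ z * z := Nat.le_mul_self z
    have h8 : 3 * n ≤ 4 * z + 3 := by omega
    have h9 : 20 ≤ n := by omega
    have h10 : (3 * n) * (3 * n) ≤ (4 * z + 3) * (4 * z + 3) := Nat.mul_le_mul h8 h8
    have h11 : 14 * n ≤ n * n := Nat.mul_le_mul_right _ (by omega)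
    zify [h7] at *
    nlinarith
  have h12 : 0 < n ^ 2 := by
    have : 0 < n := by omega
    positivity
  refine Nat.le_of_mul_le_mul_right ?_ h12
  calc q * B.card * n ^ 2 ≤ q * B.card * (2 * Z.offDiag.card) := Nat.mul_le_mul_left _ h6
    _ = 2 * (q * (Z.offDiag.card * B.card)) := by ring
    _ ≤ 2 * (A.card * (2 * n ^ 2)) := Nat.mul_le_mul_left _ h5
    _ = 4 * A.card * n ^ 2 := by ring

open Classical in
/-- A chain of coincidences is unlikely. -/
theorem chain_bound (hsq : ∀ a b : E, a * a = b * b → a = b) {q : ℕ} (hq : q ≤ Fintype.card E)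
    (hc : q * (univ.filter fun x : E × E => x.1 * x.2 = x.2 * x.1).card ≤ 2 * Fintype.card E ^ 2)
    (hQ : Fintype.card Q = Fintype.card X * Fintype.card E)
    (l : List (Coin Q)) (hl : IsChain l) (hn : 16 * l.length + 4 ≤ Fintype.card Q) :
    q ^ l.length * (univ.filter fun e : Q ≃ X × E => ∀ κ' ∈ l, Holds (pr e) κ').card ≤
      4 ^ l.length * Fintype.card (Q ≃ X × E) := by
  induction l with
  | nil =>
    rw [List.length_nil, pow_zero, pow_zero, one_mul, one_mul]
    exact card_le_univ _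
  | cons κ l ih =>
    obtain ⟨h1, h2, h3⟩ := hl
    rw [List.length_cons] at hn ⊢
    have h4 := ih h3 (by omega)
    have h5 := step hsq hq hc hQ l κ h1 h2 hn
    calc q ^ (l.length + 1) *
          (univ.filter fun e : Q ≃ X × E => ∀ κ' ∈ κ :: l, Holds (pr e) κ').card
        = q ^ l.length * (q *
          (univ.filter fun e : Q ≃ X × E => ∀ κ' ∈ κ :: l, Holds (pr e) κ').card) := by ring
      _ ≤ q ^ l.length * (4 *
          (univ.filter fun e : Q ≃ X × E => ∀ κ' ∈ l, Holds (pr e) κ').card) :=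
          Nat.mul_le_mul_left _ h5
      _ = 4 * (q ^ l.length *
          (univ.filter fun e : Q ≃ X × E => ∀ κ' ∈ l, Holds (pr e) κ').card) := by ring
      _ ≤ 4 * (4 ^ l.length * Fintype.card (Q ≃ X × E)) := Nat.mul_le_mul_left _ h4
      _ = 4 ^ (l.length + 1) * Fintype.card (Q ≃ X × E) := by ring

/-- The set `C` is a core for the atoms in `𝒜`. -/
def IsCore (𝒜 : Finset (Atom Q)) (u : Q → E) (C : Finset Q) : Prop :=
  ∀ α ∈ 𝒜, ∀ β ∈ 𝒜, α ≠ β → val u α = val u β → ((labs α ∪ labs β) \ C).card ≤ 1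

open Classical in
/-- Most labelings have a small core. -/
theorem bad_bound (hsq : ∀ a b : E, a * a = b * b → a = b) {q : ℕ} (hq : q ≤ Fintype.card E)
    (hc : q * (univ.filter fun x : E × E => x.1 * x.2 = x.2 * x.1).card ≤ 2 * Fintype.card E ^ 2)
    (hQ : Fintype.card Q = Fintype.card X * Fintype.card E)
    (𝒜 : Finset (Atom Q)) (t : ℕ) (hn : 16 * t + 4 ≤ Fintype.card Q) :
    q ^ t * (univ.filter fun e : Q ≃ X × E =>
      ¬ ∃ C : Finset Q, C.card ≤ 4 * t ∧ IsCore 𝒜 (pr e) C).card ≤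
      (4 * 𝒜.card ^ 2) ^ t * Fintype.card (Q ≃ X × E) := by
  let V : Finset (Fin t → Coin Q) :=
    (Fintype.piFinset fun _ : Fin t => 𝒜 ×ˢ 𝒜).filter fun v => IsChain (List.ofFn v)
  have hsub : (univ.filter fun e : Q ≃ X × E =>
      ¬ ∃ C : Finset Q, C.card ≤ 4 * t ∧ IsCore 𝒜 (pr e) C) ⊆
      V.biUnion fun v => univ.filter fun e : Q ≃ X × E => ∀ κ' ∈ List.ofFn v, Holds (pr e) κ' := by
    intro e he
    rw [mem_filter] at he
    rcases greedy 𝒜 (pr e) t with ⟨C, hC, h⟩ | ⟨l, hl, hch, hall⟩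
    · exact absurd ⟨C, hC, h⟩ he.2
    · subst hl
      rw [mem_biUnion]
      refine ⟨l.get, ?_, ?_⟩
      · rw [mem_filter, Fintype.mem_piFinset, List.ofFn_get]
        refine ⟨fun i => mem_product.2 ?_, hch⟩
        have h1 := hall _ (l.get_mem i)
        exact ⟨h1.1, h1.2.1⟩
      · rw [mem_filter, List.ofFn_get]
        exact ⟨mem_univ _, fun κ hκ => (hall κ hκ).2.2⟩
  have h1 : (univ.filter fun e : Q ≃ X × E =>
      ¬ ∃ C : Finset Q, C.card ≤ 4 * t ∧ IsCore 𝒜 (pr e) C).card ≤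
      ∑ v ∈ V, (univ.filter fun e : Q ≃ X × E => ∀ κ' ∈ List.ofFn v, Holds (pr e) κ').card :=
    (card_le_card hsub).trans card_biUnion_le
  have h2 : ∀ v ∈ V, q ^ t *
      (univ.filter fun e : Q ≃ X × E => ∀ κ' ∈ List.ofFn v, Holds (pr e) κ').card ≤
      4 ^ t * Fintype.card (Q ≃ X × E) := by
    intro v hv
    have h3 := chain_bound hsq hq hc hQ (List.ofFn v) (mem_filter.1 hv).2 (by
      rw [List.length_ofFn]
      exact hn)
    rw [List.length_ofFn] at h3
    exact h3
  have h4 : V.card ≤ (𝒜.card ^ 2) ^ t := by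
    refine (card_filter_le _ _).trans ?_
    rw [Fintype.card_piFinset, prod_const, card_univ, Fintype.card_fin, card_product, pow_two]
  calc q ^ t * (univ.filter fun e : Q ≃ X × E =>
      ¬ ∃ C : Finset Q, C.card ≤ 4 * t ∧ IsCore 𝒜 (pr e) C).card
      ≤ q ^ t * ∑ v ∈ V,
        (univ.filter fun e : Q ≃ X × E => ∀ κ' ∈ List.ofFn v, Holds (pr e) κ').card :=
        Nat.mul_le_mul_left _ h1
    _ = ∑ v ∈ V, q ^ t *
        (univ.filter fun e : Q ≃ X × E => ∀ κ' ∈ List.ofFn v, Holds (pr e) κ').card :=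
        mul_sum _ _ _
    _ ≤ ∑ v ∈ V, 4 ^ t * Fintype.card (Q ≃ X × E) := sum_le_sum h2
    _ = V.card * (4 ^ t * Fintype.card (Q ≃ X × E)) := by rw [sum_const, smul_eq_mul]
    _ ≤ (𝒜.card ^ 2) ^ t * (4 ^ t * Fintype.card (Q ≃ X × E)) := Nat.mul_le_mul_right _ h4
    _ = (4 * 𝒜.card ^ 2) ^ t * Fintype.card (Q ≃ X × E) := by
      rw [mul_pow]
      ring

end Pool.Agent.Zk34.TJ
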