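import Pool.Agent.Zk34.TJ.Rand
import Pool.Agent.Y600.GI.Loop

/-!
# Labelings with a core cannot be distinguished

The labelled group `G × E`, seen on a set of cells for which the components in `E` have a small
core, looks like the labelled group `H × E` for a permuted choice of the components in `G`.
-/

set_option autoImplicit false
set_option linter.unusedSectionVars false

namespace Pool.Agent.Zk34.TJ

open Finset Module Pool.Agent.Y600.GI
open Pool.Agent.W879.GW (T)

section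

variable {F A C : Type} [Field F] [AddCommGroup A] [Module F A] [AddCommGroup C] [Module F C]
  {g : ℕ}

theorem sh_add (M : A →ₗ[F] C) (a b : QQ F A C g) : sh M (a + b) = sh M a + sh M b := by
  refine Prod.ext (Prod.ext rfl ?_) rfl
  show a.1.2 + b.1.2 + M (a.1.1 + b.1.1) = a.1.2 + M a.1.1 + (b.1.2 + M b.1.1)
  rw [map_add]
  abel

theorem sh_sh (M N : A →ₗ[F] C) (a : QQ F A C g) : sh N (sh M a) = sh (N + M) a := by
  refine Prod.ext (Prod.ext rfl ?_) rfl
  show a.1.2 + M a.1.1 + N a.1.1 = a.1.2 + (N a.1.1 + M a.1.1)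
  abel

theorem sh_zero (a : QQ F A C g) : sh (0 : A →ₗ[F] C) a = a := by
  refine Prod.ext (Prod.ext rfl ?_) rfl
  show a.1.2 + (0 : A →ₗ[F] C) a.1.1 = a.1.2
  rw [LinearMap.zero_apply, add_zero]

/-- The shears followed by translations. -/
def act (m : (A →ₗ[F] C) × QQ F A C g) : Equiv.Perm (QQ F A C g) where
  toFun q := sh m.1 q + m.2
  invFun q := sh (-m.1) (q - m.2)
  left_inv q := by
    show sh (-m.1) (sh m.1 q + m.2 - m.2) = q
    rw [add_sub_cancel_right, sh_neg]
  right_inv q := by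
    show sh m.1 (sh (-m.1) (q - m.2)) + m.2 = q
    rw [sh_neg', sub_add_cancel]

theorem act_apply (m : (A →ₗ[F] C) × QQ F A C g) (q : QQ F A C g) : act m q = sh m.1 q + m.2 := rfl

/-- The composition. -/
def comp (n m : (A →ₗ[F] C) × QQ F A C g) : (A →ₗ[F] C) × QQ F A C g :=
  (n.1 + m.1, sh n.1 m.2 + n.2)

theorem act_comp (n m : (A →ₗ[F] C) × QQ F A C g) (q : QQ F A C g) :
    act (comp n m) q = act n (act m q) := by
  rw [act_apply, act_apply, act_apply, sh_add, sh_sh, add_assoc]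
  rfl

theorem comp_inj {n m m' : (A →ₗ[F] C) × QQ F A C g} (h : comp n m = comp n m') : m = m' := by
  have h1 := congrArg Prod.fst h
  have h2 := congrArg Prod.snd h
  have h3 : n.1 + m.1 = n.1 + m'.1 := h1
  have h4 : sh n.1 m.2 + n.2 = sh n.1 m'.2 + n.2 := h2
  exact Prod.ext (add_left_cancel h3) (sh_inj n.1 (add_right_cancel h4))

end

variable {F A C : Type} [Field F] [AddCommGroup A] [Module F A] [FiniteDimensional F A]
  [AddCommGroup C] [Module F C] {g K : ℕ} {ι : C →ₗ[F] (Fin g → Dual F A)}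
  {f f' : A →ₗ[F] A →ₗ[F] (Fin g → F)} {Q E : Type} [DecidableEq Q] [Group E]

/-- The labelings of `G × E`. -/
def labl (e : Q ≃ QQ F A C g × E) (σ : E → (A →ₗ[F] C) × QQ F A C g) : Q ≃ QQ F A C g × E :=
  e.trans
    { toFun := fun z => (act (σ z.2) z.1, z.2)
      invFun := fun z => ((act (σ z.2)).symm z.1, z.2)
      left_inv := fun z => Prod.ext ((act (σ z.2)).symm_apply_apply z.1) rfl
      right_inv := fun z => Prod.ext ((act (σ z.2)).apply_symm_apply z.1) rfl }

/-- The component in `G` of a label. -/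
def vv (e : Q ≃ QQ F A C g × E) (σ : E → (A →ₗ[F] C) × QQ F A C g) (x : Q) : QQ F A C g :=
  act (σ (pr e x)) (e x).1

theorem labl_apply (e : Q ≃ QQ F A C g × E) (σ : E → (A →ₗ[F] C) × QQ F A C g) (x : Q) :
    labl e σ x = (vv e σ x, pr e x) := rfl

/-- The multiplication table. -/
def mt (ι : C →ₗ[F] (Fin g → Dual F A)) (f : A →ₗ[F] A →ₗ[F] (Fin g → F))
    (e : Q ≃ QQ F A C g × E) (σ : E → (A →ₗ[F] C) × QQ F A C g) (a b : Q) : Q :=
  (labl e σ).symm (op ι f (labl e σ a).1 (labl e σ b).1, (labl e σ a).2 * (labl e σ b).2)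

theorem mt_eq (ι : C →ₗ[F] (Fin g → Dual F A)) (f f' : A →ₗ[F] A →ₗ[F] (Fin g → F))
    (e : Q ≃ QQ F A C g × E) (σ τ : E → (A →ₗ[F] C) × QQ F A C g)
    (P : E → (A →ₗ[F] C) × QQ F A C g) (hP : ∀ w, τ w = comp (P w) (σ w)) (a b : Q)
    (h : act (P (pr e a * pr e b)) (op ι f (vv e σ a) (vv e σ b)) =
      op ι f' (act (P (pr e a)) (vv e σ a)) (act (P (pr e b)) (vv e σ b))) :
    mt ι f e σ a b = mt ι f' e τ a b := by
  have hv : ∀ x, vv e τ x = act (P (pr e x)) (vv e σ x) := by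
    intro x
    unfold vv
    rw [hP, act_comp]
  obtain ⟨w, hw⟩ : ∃ w, w = pr e a * pr e b := ⟨_, rfl⟩
  obtain ⟨G, hG⟩ : ∃ G, G = op ι f (vv e σ a) (vv e σ b) := ⟨_, rfl⟩
  rw [← hw, ← hG] at h
  have h1 : mt ι f e σ a b = e.symm ((act (σ w)).symm G, w) := by
    rw [hw, hG]
    rfl
  have h2 : mt ι f' e τ a b = (labl e τ).symm (op ι f' (vv e τ a) (vv e τ b), w) := by
    rw [hw]
    rfl
  rw [h1, h2, Equiv.eq_symm_apply, labl_apply]
  have h3 : pr e (e.symm ((act (σ w)).symm G, w)) = w := by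
    unfold pr
    rw [Equiv.apply_symm_apply]
  have h4 : vv e σ (e.symm ((act (σ w)).symm G, w)) = G := by
    unfold vv
    rw [h3, Equiv.apply_symm_apply, Equiv.apply_symm_apply]
  rw [hv, h3, h4, h, hv a, hv b]

theorem span_finrank (c : Finset Q) (ξ : Q → A) (x : A) :
    finrank F (Submodule.span F (ξ '' (c : Set Q)) ⊔ Submodule.span F {x} : Submodule F A) ≤
      c.card + 1 := by
  classical
  have h1 := Submodule.finrank_add_le_finrank_add_finrank (Submodule.span F (ξ '' (c : Set Q)))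
    (Submodule.span F ({x} : Set A))
  have h2 := finrank_span_finset_le_card (R := F) (c.image ξ)
  rw [coe_image] at h2
  have h3 := finrank_span_finset_le_card (R := F) ({x} : Finset A)
  rw [coe_singleton, card_singleton] at h3
  have h4 : (c.image ξ).card ≤ c.card := card_image_le
  unfold Set.finrank at h2 h3
  omega

/-- The maps used for the permutation. -/
theorem exists_maps (hι : Function.Injective ι) (hE : Exp (LinearMap.range ι) 2 (4 * K))
    (N : A →ₗ[F] (Fin g → Dual F A)) (hN : f - f' = T N) (c : Finset Q) (hc : c.card + 1 ≤ K) :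
    ∃ (Mc : (Q → A) → A →ₗ[F] C) (Mf : (Q → A) → A → A →ₗ[F] C),
      (∀ ξ, Sol ι K (f - f') (Submodule.span F (ξ '' (c : Set Q))) (Mc ξ)) ∧
      (∀ ξ x, Sol ι K (f - f') (Submodule.span F (ξ '' (c : Set Q)) ⊔ Submodule.span F {x})
        (Mf ξ x)) ∧
      ∀ ξ x, ∀ w ∈ Submodule.span F (ξ '' (c : Set Q)), Mf ξ x w = Mc ξ w := by
  have h1 : ∀ ξ : Q → A, ∃ M : A →ₗ[F] C,
      Sol ι K (f - f') (Submodule.span F (ξ '' (c : Set Q))) M := by
    intro ξ
    have h2 : Sol ι K (f - f') ⊥ 0 := by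
      rw [hN]
      exact sol_bot hE N
    obtain ⟨M, hM, _⟩ := h2.extend hι hE (Submodule.span F (ξ '' (c : Set Q))) (by
      have h3 := span_finrank (F := F) c ξ 0
      have h4 := Submodule.finrank_mono (R := F) (le_sup_left : Submodule.span F (ξ '' (c : Set Q)) ≤
        Submodule.span F (ξ '' (c : Set Q)) ⊔ Submodule.span F {0})
      omega)
    exact ⟨M, hM⟩
  choose Mc hMc using h1
  have h2 : ∀ (ξ : Q → A) (x : A), ∃ M : A →ₗ[F] C,
      Sol ι K (f - f') (Submodule.span F (ξ '' (c : Set Q)) ⊔ Submodule.span F {x}) M ∧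
      ∀ w ∈ Submodule.span F (ξ '' (c : Set Q)), M w = Mc ξ w := fun ξ x =>
    (hMc ξ).extend hι hE _ ((span_finrank c ξ x).trans hc)
  choose Mf hMf hag using h2
  exact ⟨Mc, Mf, hMc, hMf, hag⟩

theorem sh_congr {M M' : A →ₗ[F] C} {q : QQ F A C g} (h : M' q.1.1 = M q.1.1) :
    sh M' q = sh M q := by
  unfold sh
  rw [h]

open Classical in
/-- **Indistinguishability on sets of cells with a core.** -/
theorem exists_perm [Finite Q] [Finite E] [Finite A] [Finite C] [Finite F] (hK : 1 ≤ K)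
    (hι : Function.Injective ι)
    (hE : Exp (LinearMap.range ι) 2 (4 * K)) (N : A →ₗ[F] (Fin g → Dual F A))
    (hN : f - f' = T N) (e : Q ≃ QQ F A C g × E) (𝒜 : Finset (Atom Q))
    (h𝒜 : ∀ c, Sum.inr c ∈ 𝒜 → Sum.inl c.1 ∈ 𝒜 ∧ Sum.inl c.2 ∈ 𝒜)
    (c : Finset Q) (hc : c.card + 1 ≤ K) (hcore : IsCore 𝒜 (pr e) c) :
    ∃ Φ : Equiv.Perm (E → (A →ₗ[F] C) × QQ F A C g), ∀ σ a b, Sum.inr (a, b) ∈ 𝒜 →
      mt ι f e σ a b = mt ι f' e (Φ σ) a b := by
  obtain ⟨Mc, Mf, hMc, hMf, hag⟩ := exists_maps hι hE N hN c hc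
  -- the components in `A` of the core
  let ξ : (E → (A →ₗ[F] C) × QQ F A C g) → Q → A := fun σ x => if x ∈ c then (vv e σ x).1.1 else 0
  let is2 : E → Q × Q → Prop := fun w d =>
    Sum.inr d ∈ 𝒜 ∧ pr e d.1 * pr e d.2 = w ∧ d.1 ∉ c ∧ d.2 ∉ c ∧ d.1 ≠ d.2
  let is1 : E → Q → Prop := fun w y => ∃ α ∈ 𝒜, val (pr e) α = w ∧ labs α \ c = {y}
  let d2 : (E → (A →ₗ[F] C) × QQ F A C g) → Q × Q → QQ F A C g := fun σ d =>
    op ι f' (sh (Mf (ξ σ) (vv e σ d.1).1.1) (vv e σ d.1))
      (sh (Mf (ξ σ) (vv e σ d.2).1.1) (vv e σ d.2)) - op ι f (vv e σ d.1) (vv e σ d.2)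
  let P : (E → (A →ₗ[F] C) × QQ F A C g) → E → (A →ₗ[F] C) × QQ F A C g := fun σ w =>
    if h2 : ∃ d, is2 w d then (0, d2 σ h2.choose)
    else if h1 : ∃ y, is1 w y then (Mf (ξ σ) (vv e σ h1.choose).1.1, 0)
    else (Mc (ξ σ), 0)
  -- uniqueness
  have U2 : ∀ w d, is2 w d → ∀ α ∈ 𝒜, val (pr e) α = w → α = Sum.inr d := by
    intro w d hd α hα hv
    by_contra hne
    have h1 := hcore α hα (Sum.inr d) hd.1 hne (by
      rw [hv]
      exact hd.2.1.symm)
    have h2 : ({d.1, d.2} : Finset Q) ⊆ (labs α ∪ labs (Sum.inr d)) \ c := by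
      intro x hx
      rw [mem_sdiff]
      refine ⟨mem_union_right _ hx, ?_⟩
      rcases mem_insert.1 hx with rfl | hx
      · exact hd.2.2.1
      · rw [mem_singleton.1 hx]
        exact hd.2.2.2.1
    have h3 := card_le_card h2
    rw [card_pair hd.2.2.2.2] at h3
    omega
  have U1 : ∀ w y, is1 w y → ∀ β ∈ 𝒜, val (pr e) β = w → labs β \ c ⊆ {y} := by
    rintro w y ⟨α, hα, hv, hy⟩ β hβ hv'
    by_cases hne : α = β
    · rw [← hne, hy]
    · have h1 := hcore α hα β hβ hne (hv.trans hv'.symm)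
      have h2 : labs α \ c ⊆ (labs α ∪ labs β) \ c := sdiff_subset_sdiff subset_union_left
        (Subset.refl c)
      have h3 : labs β \ c ⊆ (labs α ∪ labs β) \ c := sdiff_subset_sdiff subset_union_right
        (Subset.refl c)
      rw [hy] at h2
      have h4 : {y} = (labs α ∪ labs β) \ c := by
        refine eq_of_subset_of_card_le h2 ?_
        rw [card_singleton]
        exact h1
      rw [h4]
      exact h3
  have hmemξ : ∀ σ x, x ∈ c → (vv e σ x).1.1 ∈ Submodule.span F (ξ σ '' (c : Set Q)) := by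
    intro σ x hx
    refine Submodule.subset_span ⟨x, hx, ?_⟩
    show (if x ∈ c then (vv e σ x).1.1 else 0) = _
    rw [if_pos hx]
  -- the value of `P` at the fibre of an atom without two free labels
  have hP0 : ∀ σ w α, α ∈ 𝒜 → val (pr e) α = w → (∀ d, α = Sum.inr d → ¬ (d.1 ∉ c ∧ d.2 ∉ c ∧
      d.1 ≠ d.2)) → ∀ q : QQ F A C g,
      (∀ y, labs α \ c ⊆ {y} → (labs α \ c).Nonempty →
        act (P σ w) q = sh (Mf (ξ σ) (vv e σ y).1.1) q) ∧
      (labs α \ c = ∅ → q.1.1 ∈ Submodule.span F (ξ σ '' (c : Set Q)) →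
        act (P σ w) q = sh (Mc (ξ σ)) q) := by
    intro σ w α hα hv hd q
    have hno2 : ¬ ∃ d, is2 w d := by
      rintro ⟨d, hd2⟩
      exact hd d (U2 w d hd2 α hα hv) hd2.2.2
    refine ⟨fun y hy hne => ?_, fun hemp hq => ?_⟩
    · have h1 : ∃ y, is1 w y := ⟨y, α, hα, hv, by
        rcases subset_singleton_iff.1 hy with h | h
        · rw [h] at hne
          exact absurd hne not_nonempty_empty
        · exact h⟩
      have h2 := U1 w _ h1.choose_spec α hα hv
      have h3 : h1.choose = y := by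
        obtain ⟨z, hz⟩ := hne
        rw [← mem_singleton.1 (h2 hz), mem_singleton.1 (hy hz)]
      show act (if h2 : ∃ d, is2 w d then (0, d2 σ h2.choose)
        else if h1 : ∃ y, is1 w y then (Mf (ξ σ) (vv e σ h1.choose).1.1, 0)
        else (Mc (ξ σ), 0)) q = _
      rw [dif_neg hno2, dif_pos h1, h3, act_apply, add_zero]
    · show act (if h2 : ∃ d, is2 w d then (0, d2 σ h2.choose)
        else if h1 : ∃ y, is1 w y then (Mf (ξ σ) (vv e σ h1.choose).1.1, 0)
        else (Mc (ξ σ), 0)) q = _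
      rw [dif_neg hno2]
      by_cases h1 : ∃ y, is1 w y
      · rw [dif_pos h1, act_apply, add_zero]
        exact sh_congr (hag _ _ _ hq)
      · rw [dif_neg h1, act_apply, add_zero]
  have hlab : ∀ σ x, Sum.inl x ∈ 𝒜 →
      (x ∉ c → act (P σ (pr e x)) (vv e σ x) = sh (Mf (ξ σ) (vv e σ x).1.1) (vv e σ x)) ∧
      (x ∈ c → act (P σ (pr e x)) (vv e σ x) = sh (Mc (ξ σ)) (vv e σ x)) := by
    intro σ x hx
    have h1 := hP0 σ (pr e x) (Sum.inl x) hx rfl (fun d h => absurd h (by simp)) (vv e σ x)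
    refine ⟨fun hxc => h1.1 x ?_ ?_, fun hxc => h1.2 ?_ (hmemξ σ x hxc)⟩
    · rw [labs_inl]
      exact sdiff_subset
    · exact ⟨x, by rw [labs_inl, mem_sdiff]; exact ⟨mem_singleton_self x, hxc⟩⟩
    · rw [labs_inl, sdiff_eq_empty_iff_subset, singleton_subset_iff]
      exact hxc
  have hopmem : ∀ (W : Submodule F A) (q q' : QQ F A C g), q.1.1 ∈ W → q'.1.1 ∈ W →
      (op ι f q q').1.1 ∈ W := fun W q q' h h' => W.add_mem h h'
  have hmul : ∀ σ a b, Sum.inr (a, b) ∈ 𝒜 →
      act (P σ (pr e a * pr e b)) (op ι f (vv e σ a) (vv e σ b)) =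
      op ι f' (act (P σ (pr e a)) (vv e σ a)) (act (P σ (pr e b)) (vv e σ b)) := by
    intro σ a b hab
    obtain ⟨ha, hb⟩ := h𝒜 _ hab
    by_cases h2 : a ∉ c ∧ b ∉ c ∧ a ≠ b
    · have h3 : ∃ d, is2 (pr e a * pr e b) d := ⟨(a, b), hab, rfl, h2⟩
      have h4 : h3.choose = (a, b) := by
        have h5 := U2 _ _ h3.choose_spec (Sum.inr (a, b)) hab rfl
        exact (Sum.inr.inj h5).symm
      rw [(hlab σ a ha).1 h2.1, (hlab σ b hb).1 h2.2.1]
      show act (if h2 : ∃ d, is2 (pr e a * pr e b) d then (0, d2 σ h2.choose)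
        else if h1 : ∃ y, is1 (pr e a * pr e b) y then (Mf (ξ σ) (vv e σ h1.choose).1.1, 0)
        else (Mc (ξ σ), 0)) _ = _
      rw [dif_pos h3, h4, act_apply, sh_zero]
      show op ι f (vv e σ a) (vv e σ b) + (op ι f' (sh (Mf (ξ σ) (vv e σ a).1.1) (vv e σ a))
        (sh (Mf (ξ σ) (vv e σ b).1.1) (vv e σ b)) - op ι f (vv e σ a) (vv e σ b)) = _
      rw [add_sub_cancel]
    · have h3 := hP0 σ (pr e a * pr e b) (Sum.inr (a, b)) hab rfl (by
        rintro d hd
        rw [← Sum.inr.inj hd]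
        exact h2) (op ι f (vv e σ a) (vv e σ b))
      by_cases hac : a ∈ c
      · by_cases hbc : b ∈ c
        · have h4 : labs (Sum.inr (a, b)) \ c = ∅ := by
            rw [labs_inr, sdiff_eq_empty_iff_subset]
            intro x hx
            rcases mem_insert.1 hx with rfl | hx
            · exact hac
            · rw [mem_singleton.1 hx]
              exact hbc
          rw [h3.2 h4 (hopmem _ _ _ (hmemξ σ a hac) (hmemξ σ b hbc)), (hlab σ a ha).2 hac,
            (hlab σ b hb).2 hbc]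
          exact sh_op _ _ _ ((hMc (ξ σ)).eq_on hK (hmemξ σ a hac) (hmemξ σ b hbc))
        · have h4 : labs (Sum.inr (a, b)) \ c ⊆ {b} := by
            intro x hx
            rw [mem_sdiff, labs_inr] at hx
            rcases mem_insert.1 hx.1 with rfl | hx'
            · exact absurd hac hx.2
            · exact hx'
          have h5 : (labs (Sum.inr (a, b)) \ c).Nonempty := ⟨b, by
            rw [mem_sdiff, labs_inr]
            exact ⟨by simp, hbc⟩⟩
          rw [h3.1 b h4 h5, (hlab σ a ha).2 hac, (hlab σ b hb).1 hbc]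
          rw [show sh (Mc (ξ σ)) (vv e σ a) = sh (Mf (ξ σ) (vv e σ b).1.1) (vv e σ a) from
            (sh_congr (hag _ _ _ (hmemξ σ a hac))).symm]
          exact sh_op _ _ _ ((hMf (ξ σ) _).eq_on hK (Submodule.mem_sup_left (hmemξ σ a hac))
            (Submodule.mem_sup_right (Submodule.mem_span_singleton_self _)))
      · have hb2 : b ∈ c ∨ b = a := by
          by_contra hcon
          rw [not_or] at hcon
          exact h2 ⟨hac, hcon.1, Ne.symm hcon.2⟩
        have h4 : labs (Sum.inr (a, b)) \ c ⊆ {a} := by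
          intro x hx
          rw [mem_sdiff, labs_inr] at hx
          rcases mem_insert.1 hx.1 with rfl | hx'
          · exact mem_singleton_self _
          · rw [mem_singleton.1 hx'] at hx ⊢
            rcases hb2 with h | h
            · exact absurd h hx.2
            · rw [h]
              exact mem_singleton_self _
        have h5 : (labs (Sum.inr (a, b)) \ c).Nonempty := ⟨a, by
          rw [mem_sdiff, labs_inr]
          exact ⟨by simp, hac⟩⟩
        rw [h3.1 a h4 h5, (hlab σ a ha).1 hac]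
        rcases hb2 with hbc | rfl
        · rw [(hlab σ b hb).2 hbc, show sh (Mc (ξ σ)) (vv e σ b) =
            sh (Mf (ξ σ) (vv e σ a).1.1) (vv e σ b) from
            (sh_congr (hag _ _ _ (hmemξ σ b hbc))).symm]
          exact sh_op _ _ _ ((hMf (ξ σ) _).eq_on hK
            (Submodule.mem_sup_right (Submodule.mem_span_singleton_self _))
            (Submodule.mem_sup_left (hmemξ σ b hbc)))
        · rw [(hlab σ b ha).1 hac]
          exact sh_op _ _ _ ((hMf (ξ σ) _).eq_on hK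
            (Submodule.mem_sup_right (Submodule.mem_span_singleton_self _))
            (Submodule.mem_sup_right (Submodule.mem_span_singleton_self _)))
  -- the permutation
  let Φ0 : (E → (A →ₗ[F] C) × QQ F A C g) → E → (A →ₗ[F] C) × QQ F A C g :=
    fun σ w => comp (P σ w) (σ w)
  have hPx : ∀ σ w, (P σ w).2.1.1 = 0 := by
    intro σ w
    show (if h2 : ∃ d, is2 w d then ((0 : A →ₗ[F] C), d2 σ h2.choose)
        else if h1 : ∃ y, is1 w y then (Mf (ξ σ) (vv e σ h1.choose).1.1, 0)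
        else (Mc (ξ σ), 0)).2.1.1 = 0
    split_ifs with h2 h1
    · show ((vv e σ h2.choose.1).1.1 + (vv e σ h2.choose.2).1.1) -
        ((vv e σ h2.choose.1).1.1 + (vv e σ h2.choose.2).1.1) = 0
      rw [sub_self]
    · rfl
    · rfl
  have hx : ∀ σ x, (vv e (Φ0 σ) x).1.1 = (vv e σ x).1.1 := by
    intro σ x
    show (act (comp (P σ (pr e x)) (σ (pr e x))) (e x).1).1.1 = _
    rw [act_comp]
    show (vv e σ x).1.1 + (P σ (pr e x)).2.1.1 = _
    rw [hPx, add_zero]
  have hinj : Function.Injective Φ0 := by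
    intro σ σ' hσ
    have hx' : ∀ x, (vv e σ x).1.1 = (vv e σ' x).1.1 := fun x => by
      rw [← hx σ x, ← hx σ' x, hσ]
    have hξ : ξ σ = ξ σ' := by
      funext x
      show (if x ∈ c then (vv e σ x).1.1 else 0) = if x ∈ c then (vv e σ' x).1.1 else 0
      rw [hx']
    have hone : ∀ w, (¬ ∃ d, is2 w d) → σ w = σ' w := by
      intro w hno2
      have h1 : P σ w = P σ' w := by
        show (if h2 : ∃ d, is2 w d then ((0 : A →ₗ[F] C), d2 σ h2.choose)
          else if h1 : ∃ y, is1 w y then (Mf (ξ σ) (vv e σ h1.choose).1.1, 0)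
          else (Mc (ξ σ), 0)) =
          (if h2 : ∃ d, is2 w d then ((0 : A →ₗ[F] C), d2 σ' h2.choose)
          else if h1 : ∃ y, is1 w y then (Mf (ξ σ') (vv e σ' h1.choose).1.1, 0)
          else (Mc (ξ σ'), 0))
        rw [dif_neg hno2, dif_neg hno2, hξ]
        split_ifs with h1
        · rw [hx']
        · rfl
      have h2 := congrFun hσ w
      have h3 : comp (P σ w) (σ w) = comp (P σ' w) (σ' w) := h2
      rw [h1] at h3
      exact comp_inj h3
    have hlab2 : ∀ x, Sum.inl x ∈ 𝒜 → vv e σ x = vv e σ' x := by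
      intro x hx2
      unfold vv
      rw [hone (pr e x) ?_]
      rintro ⟨d, hd⟩
      have h1 := U2 _ d hd (Sum.inl x) hx2 rfl
      exact absurd h1 (by simp)
    funext w
    by_cases h2 : ∃ d, is2 w d
    · have h1 : P σ w = P σ' w := by
        show (if h2 : ∃ d, is2 w d then ((0 : A →ₗ[F] C), d2 σ h2.choose)
          else if h1 : ∃ y, is1 w y then (Mf (ξ σ) (vv e σ h1.choose).1.1, 0)
          else (Mc (ξ σ), 0)) =
          (if h2 : ∃ d, is2 w d then ((0 : A →ₗ[F] C), d2 σ' h2.choose)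
          else if h1 : ∃ y, is1 w y then (Mf (ξ σ') (vv e σ' h1.choose).1.1, 0)
          else (Mc (ξ σ'), 0))
        rw [dif_pos h2, dif_pos h2]
        obtain ⟨h3, h4⟩ := h𝒜 _ h2.choose_spec.1
        show ((0 : A →ₗ[F] C), op ι f' (sh (Mf (ξ σ) (vv e σ h2.choose.1).1.1)
          (vv e σ h2.choose.1))
          (sh (Mf (ξ σ) (vv e σ h2.choose.2).1.1) (vv e σ h2.choose.2)) -
            op ι f (vv e σ h2.choose.1) (vv e σ h2.choose.2)) =
          ((0 : A →ₗ[F] C), op ι f' (sh (Mf (ξ σ') (vv e σ' h2.choose.1).1.1)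
          (vv e σ' h2.choose.1))
          (sh (Mf (ξ σ') (vv e σ' h2.choose.2).1.1) (vv e σ' h2.choose.2)) -
            op ι f (vv e σ' h2.choose.1) (vv e σ' h2.choose.2))
        rw [hξ, hlab2 _ h3, hlab2 _ h4]
      have h5 := congrFun hσ w
      have h3 : comp (P σ w) (σ w) = comp (P σ' w) (σ' w) := h5
      rw [h1] at h3
      exact comp_inj h3
    · exact hone w h2
  have : Finite (A →ₗ[F] C) := Finite.of_injective (fun M : A →ₗ[F] C => (M : A → C))
    DFunLike.coe_injective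
  have : Finite (E → (A →ₗ[F] C) × QQ F A C g) := inferInstance
  have hbij : Function.Bijective Φ0 := Finite.injective_iff_bijective.1 hinj
  refine ⟨Equiv.ofBijective Φ0 hbij, fun σ a b hab => ?_⟩
  exact mt_eq ι f f' e σ (Φ0 σ) (P σ) (fun w => rfl) a b (hmul σ a b hab)

end Pool.Agent.Zk34.TJ
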